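import Pool.Agent.H921Z.Herm.Seq

set_option autoImplicit false

open Polynomial Finset Filter Topology

namespace Pool.Agent.H921Z.Herm

/-- `(1 + 2 S) ^ j` applied to a sequence, `S` the backward shift -/
noncomputable def E (b : ℕ → ℝ) : ℕ → ℕ → ℝ
  | 0, k => b k
  | j+1, k => E b j k + 2 * E b j (k-1)

/-- no run of one weak sign over a window `[a, 2a]` -/
def NoRun (b : ℕ → ℝ) : Prop :=
  ∃ A, ∀ a, A ≤ a → ∀ s : ℝ, (s = 1 ∨ s = -1) → ¬ ∀ k, a ≤ k → k ≤ 2 * a → 0 ≤ s * b k

lemma step (b e : ℕ → ℝ) (he : ∀ k, e k = 1 ∨ e k = -1)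
    (hE : ∀ k j, 2 * j ≤ k → 0 ≤ e k * E b j k) (n : ℕ)
    (hn : ¬ ∀ k, n ≤ k → k ≤ 2 * n → 0 ≤ e n * b k) :
    ∃ k, n < k ∧ 2 ^ k * |b n| ≤ 2 ^ n * |b k| := by
  have hex : ∃ k, n ≤ k ∧ k ≤ 2 * n ∧ e k ≠ e n := by
    by_contra hc
    push Not at hc
    apply hn
    intro k h1 h2
    have := hE k 0 (by omega)
    rwa [hc k h1 h2] at this
  classical
  let k := Nat.find hex
  have hk : n ≤ k ∧ k ≤ 2 * n ∧ e k ≠ e n := Nat.find_spec hex
  have hmin : ∀ i, n ≤ i → i < k → e i = e n := by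
    intro i h1 h2
    by_contra hc
    exact Nat.find_min hex h2 ⟨h1, by omega, hc⟩
  have hnk : n < k := by
    rcases hk.1.lt_or_eq with h | h
    · exact h
    · exact absurd (by rw [← h]) hk.2.2
  obtain ⟨L, hL⟩ : ∃ L, k = n + L + 1 := ⟨k - n - 1, by omega⟩
  set s := e n with hs
  have hek : e k = -s := by
    have h3 := hk.2.2
    rcases he k with h | h <;> rcases he n with h' | h'
    · exact absurd (h.trans h'.symm) h3
    · rw [h, hs, h']; norm_num
    · rw [h, hs, h']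
    · exact absurd (h.trans h'.symm) h3
  have c1 : ∀ l, l ≤ L → 2 ^ l * (s * b n) ≤ s * E b l (n + l) := by
    intro l
    induction l with
    | zero => intro _; simp [E]
    | succ l ih =>
      intro hl
      have a := ih (by omega)
      have a2 := hE (n + (l+1)) l (by omega)
      rw [hmin _ (by omega) (by omega)] at a2
      simp only [E]
      rw [show n + (l+1) - 1 = n + l by omega, pow_succ]
      nlinarith
  have c2 : ∀ j, j ≤ L → -s * E b j k ≤ -s * b k := by
    intro j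
    induction j with
    | zero => intro _; simp [E]
    | succ j ih =>
      intro hj
      have a := ih (by omega)
      have a2 := hE (k-1) j (by omega)
      rw [hmin _ (by omega) (by omega)] at a2
      simp only [E]
      nlinarith
  have c3 := hE k (L+1) (by omega)
  rw [hek] at c3
  simp only [E] at c3
  rw [show k - 1 = n + L by omega] at c3
  have c4 := c1 L le_rfl
  have c5 := c2 L le_rfl
  have c6 := hE n 0 (by omega)
  simp only [E] at c6
  rw [← hs] at c6
  refine ⟨k, hnk, ?_⟩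
  have habs : ∀ x : ℝ, |s * x| = |x| := by
    intro x; rcases he n with h | h <;> rw [hs, h] <;> simp
  have d1 : |b n| = s * b n := by rw [← habs, abs_of_nonneg c6]
  have d2 : -s * b k ≤ |b k| := by
    rw [← habs]; have := neg_abs_le (s * b k); linarith
  have d3 : 2 ^ (L+1) * |b n| ≤ |b k| := by
    rw [d1, pow_succ]; nlinarith
  rw [hL, add_assoc, pow_add, mul_assoc, ← add_assoc, ← hL]
  gcongr

lemma growth (b e : ℕ → ℝ) (he : ∀ k, e k = 1 ∨ e k = -1)
    (hE : ∀ k j, 2 * j ≤ k → 0 ≤ e k * E b j k) (hN : NoRun b) (C0 r : ℝ) (hr0 : 0 ≤ r)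
    (hr : r < 2) (hb : ∀ n, |b n| ≤ C0 * r ^ n) : False := by
  obtain ⟨A, hA⟩ := hN
  obtain ⟨n0, hn0, hb0⟩ : ∃ n0, A ≤ n0 ∧ b n0 ≠ 0 := by
    by_contra hc
    push Not at hc
    exact hA A le_rfl 1 (Or.inl rfl) (fun k h1 _ => by rw [hc k h1]; simp)
  have key : ∀ M, ∃ n, A ≤ n ∧ M ≤ n ∧ 2 ^ n * |b n0| ≤ 2 ^ n0 * |b n| := by
    intro M
    induction M with
    | zero => exact ⟨n0, hn0, Nat.zero_le _, le_rfl⟩
    | succ M ih =>
      obtain ⟨n, h1, h2, h3⟩ := ih
      obtain ⟨k, h4, h5⟩ := step b e he hE n (hA n h1 _ (he n))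
      refine ⟨k, by omega, by omega, ?_⟩
      have p : (0:ℝ) < 2 ^ n := by positivity
      apply le_of_mul_le_mul_left _ p
      calc 2 ^ n * (2 ^ k * |b n0|) = 2 ^ k * (2 ^ n * |b n0|) := by ring
        _ ≤ 2 ^ k * (2 ^ n0 * |b n|) := by gcongr
        _ = 2 ^ n0 * (2 ^ k * |b n|) := by ring
        _ ≤ 2 ^ n0 * (2 ^ n * |b k|) := by gcongr
        _ = _ := by ring
  have hlim : Tendsto (fun m : ℕ => (2 ^ n0 * C0) * (r / 2) ^ m) atTop (𝓝 ((2 ^ n0 * C0) * 0)) :=
    (tendsto_pow_atTop_nhds_zero_of_lt_one (by positivity) (by linarith)).const_mul _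
  rw [mul_zero] at hlim
  obtain ⟨M, hM⟩ := eventually_atTop.1 (hlim.eventually (gt_mem_nhds (abs_pos.2 hb0)))
  obtain ⟨n, _, h2, h3⟩ := key M
  have h4 := hM n h2
  have h5 := hb n
  rw [div_pow, ← mul_div_assoc, div_lt_iff₀ (by positivity)] at h4
  have : 2 ^ n0 * |b n| ≤ 2 ^ n0 * (C0 * r ^ n) := by gcongr
  nlinarith

lemma bt_bound (g : ℕ → ℝ) (C0 ρ : ℝ) (h : ∀ j, |g j| ≤ C0 * ρ ^ j) (n : ℕ) :
    |D n g 0| ≤ C0 * (ρ + 1) ^ n := by
  rw [D_sum, add_pow, Finset.mul_sum]
  refine (Finset.abs_sum_le_sum_abs _ _).trans (Finset.sum_le_sum fun k _ => ?_)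
  rw [abs_mul, abs_mul, abs_pow, abs_neg, abs_one, one_pow, one_mul, zero_add, Nat.abs_cast]
  have := h k
  have p : (0:ℝ) ≤ n.choose k := by positivity
  nlinarith

lemma norun_alt (g : ℕ → ℝ) (hg : ∀ n, 0 ≤ g n) (n : ℕ) (hn : 0 < g n) :
    NoRun (Bt (fun j => (-1) ^ j * g j)) := by
  have e : ∀ k, Bt (fun j => (-1) ^ j * g j) k =
      (-1) ^ k * ∑ j ∈ range (k+1), (k.choose j : ℝ) * g j := by
    intro k
    simp only [Bt]
    rw [D_sum, Finset.mul_sum]
    apply Finset.sum_congr rfl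
    intro j hj
    have : j ≤ k := by simpa [Nat.lt_succ_iff] using hj
    obtain ⟨i, rfl⟩ := Nat.exists_eq_add_of_le this
    rw [Nat.add_sub_cancel_left, zero_add, pow_add]; ring
  have p : ∀ k, n ≤ k → 0 < ∑ j ∈ range (k+1), (k.choose j : ℝ) * g j := by
    intro k hk
    apply Finset.sum_pos' (fun j _ => mul_nonneg (by positivity) (hg j))
    exact ⟨n, by simp; omega, mul_pos (by exact_mod_cast Nat.choose_pos hk) hn⟩
  refine ⟨n + 1, fun a ha s hs h => ?_⟩
  have h1 := h a le_rfl (by omega)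
  have h2 := h (a+1) (by omega) (by omega)
  rw [e] at h1 h2
  have p1 := p a (by omega)
  have p2 := p (a+1) (by omega)
  rw [pow_succ] at h2
  rcases neg_one_pow_eq_or ℝ a with h3 | h3 <;> rw [h3] at h1 h2 <;>
    rcases hs with hs | hs <;> rw [hs] at h1 h2 <;> linarith

lemma window (g : ℕ → ℝ) (s : ℝ) (a : ℕ) (h : ∀ k, a ≤ k → k ≤ 2 * a → 0 ≤ s * Bt g k) (m : ℕ) :
    ∀ j, a ≤ j → j + m ≤ 2 * a → 0 ≤ s * D j g m := by
  induction m with
  | zero => intro j h1 h2; exact h j h1 h2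
  | succ m ih =>
    intro j h1 h2
    have a1 := ih j h1 (by omega)
    have a2 := ih (j+1) (by omega) (by omega)
    rw [D_succ] at a2
    linarith

lemma exists_small (r : ℕ → ℝ) (q : ℕ) (hq : 0 < q) (ε : ℝ) (h : r q - r (2 * q) < ε) :
    ∃ m, q ≤ m ∧ m < 2 * q ∧ (r m - r (m+1)) * q < ε := by
  by_contra hc
  push Not at hc
  have key : ∀ l, l ≤ q → l * ε ≤ (r q - r (q + l)) * q := by
    intro l
    induction l with
    | zero => intro _; simp
    | succ l ih =>
      intro hl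
      have a := ih (by omega)
      have b := hc (q + l) (by omega) (by omega)
      push_cast
      rw [← add_assoc]
      linarith
  have := key q le_rfl
  rw [← two_mul] at this
  have p : (0:ℝ) < q := by exact_mod_cast hq
  nlinarith

lemma Jen.norun {g : ℕ → ℝ} (h : Jen g) (hg : ∀ n, 0 ≤ g n) (n : ℕ) (hn : g (n+1) < g n) :
    NoRun (Bt g) := by
  have hn0 : 0 < g n := lt_of_le_of_lt (hg _) hn
  rcases h.cases hg n hn0 with ⟨d, _, hd, hz⟩ | hpos
  · have e : ∀ j, D j g d = (-1) ^ j * g d := by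
      intro j
      rw [D_sum, Finset.sum_eq_single 0]
      · simp
      · intro k _ hk; rw [hz _ (by omega)]; simp
      · simp
    refine ⟨d + 1, fun a ha s hs hw => ?_⟩
    have h1 := window g s a hw d a le_rfl (by omega)
    have h2 := window g s a hw d (a+1) (by omega) (by omega)
    rw [e] at h1 h2
    rw [pow_succ] at h2
    rcases neg_one_pow_eq_or ℝ a with h3 | h3 <;> rw [h3] at h1 h2 <;>
      rcases hs with hs | hs <;> rw [hs] at h1 h2 <;> linarith
  · set ρ := g (n+1) / g n with hρ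
    have hρ1 : ρ < 1 := by rw [hρ, div_lt_one hn0]; exact hn
    have hrat := h.ratio hg n hn0 ρ (by rw [hρ]; field_simp; exact le_rfl)
    set δ := 1 - ρ with hδ
    have hδ0 : 0 < δ := by linarith
    obtain ⟨Q, hQ, hQ2⟩ := anti_cauchy (fun m => g (m+1) / g m) n
      (fun m hm' => div_nonneg (hg _) (hg _))
      (fun m hm' => by
        have t := h.turan m
        have p1 := hpos m hm'
        have p2 := hpos (m+1) (by omega)
        rw [div_le_div_iff₀ p2 p1]
        nlinarith) (δ ^ 2 / 100) (by positivity)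
    refine ⟨4 * (Q + 1), fun a ha s hs hw => ?_⟩
    set q := a / 4 with hq
    have hq1 : Q + 1 ≤ q := by omega
    obtain ⟨m, hm1, hm2, hm3⟩ := exists_small (fun m => g (m+1) / g m) q (by omega) _
      (hQ2 q (2 * q) (by omega) (by omega))
    have p0 := hpos m (by omega)
    have p1 := hpos (m+1) (by omega)
    set N := 2 * a - m with hN
    obtain ⟨t, ht, he, e1, e2⟩ := (h.btm m).fac (by simpa [D_zero] using p0.ne') N
    have d1 : D 1 g m = g (m+1) - g m := D_one g m
    have d2 : D 2 g m = g (m+2) - 2 * g (m+1) + g m := by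
      rw [D_succ 1 g m, D_one, D_one]; ring
    simp only [D_zero, d1, d2] at e1 e2 he
    have hs0 : s ≠ 0 := by rcases hs with h | h <;> rw [h] <;> norm_num
    have hdes := descartes t (s * g m) (mul_ne_zero hs0 p0.ne') a (by
      intro j hj
      rw [C_mul, mul_assoc, ← he, coeff_C_mul, J_coeff]
      by_cases hjN : j ≤ N
      · have := window g s a hw m j hj (by omega)
        have p : (0:ℝ) ≤ N.choose j := by positivity
        nlinarith [mul_nonneg p this]
      · rw [Nat.choose_eq_zero_of_lt (by omega)]; simp)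
    set r0 := g (m+1) / g m with hr0
    set r1 := g (m+1+1) / g (m+1) with hr1
    have hr0ρ : r0 ≤ ρ := by rw [hr0, div_le_iff₀ p0]; exact hrat m (by omega)
    have hr00 : 0 < r0 := div_pos p1 p0
    have hch := cheb t (r0 - 1) δ hδ0.le (by linarith)
    have f1 : t.sum = N * (r0 - 1) := by
      apply mul_left_cancel₀ p0.ne'; rw [e1, hr0]; field_simp
    have f2 : t.sum ^ 2 - (t.map (· ^ 2)).sum = N * (N - 1) * (r0 * r1 - 2 * r0 + 1) := by
      apply mul_left_cancel₀ p0.ne'; rw [e2, hr0, hr1]; field_simp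
    have f3 : (t.map (· ^ 2)).sum - 2 * (r0 - 1) * t.sum + Multiset.card t * (r0 - 1) ^ 2 =
        N * (N - 1) * (r0 * (r0 - r1)) := by
      have : (t.map (· ^ 2)).sum = t.sum ^ 2 - N * (N - 1) * (r0 * r1 - 2 * r0 + 1) := by linarith
      rw [this, f1, ht]; ring
    rw [f3] at hch
    have hcard := Multiset.card_eq_countP_add_countP (fun x : ℝ => x < 0) t
    have hK : 2 * q ≤ t.countP (fun x => ¬ x < 0) := by omega
    have hK' : (2 * q : ℝ) ≤ (t.countP (fun x => ¬ x < 0) : ℝ) := by exact_mod_cast hK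
    have hNq : (N : ℝ) ≤ 14 * q := by
      have : N ≤ 14 * q := by omega
      exact_mod_cast this
    have hN1 : (1 : ℝ) ≤ N := by
      have : 1 ≤ N := by omega
      exact_mod_cast this
    have hqp : (0 : ℝ) < q := by
      have : 0 < q := by omega
      exact_mod_cast this
    have hv : 0 ≤ r0 - r1 := by
      have t := h.turan m
      rw [hr0, hr1, sub_nonneg, div_le_div_iff₀ p1 p0]
      nlinarith
    have g1 : (N:ℝ) * (N - 1) * (r0 * (r0 - r1)) ≤ (14 * q) * (14 * q) * (1 * (r0 - r1)) := by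
      gcongr <;> linarith
    have g2 : (2 * q : ℝ) * δ ^ 2 ≤ (14 * q) * (14 * q) * (1 * (r0 - r1)) := by
      calc (2 * q : ℝ) * δ ^ 2 ≤ (t.countP (fun x => ¬ x < 0) : ℝ) * δ ^ 2 := by gcongr
        _ ≤ _ := hch.trans g1
    have g3 : (r0 - r1) * q < δ ^ 2 / 100 := hm3
    have g4 : (q:ℝ) * (2 * δ ^ 2) ≤ q * (196 * ((r0 - r1) * q)) := by linarith
    have g5 := le_of_mul_le_mul_left g4 hqp
    nlinarith [sq_pos_of_pos hδ0]

end Pool.Agent.H921Z.Herm
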