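import Pool.Agent.H921Z.Herm.RR

set_option autoImplicit false

open Polynomial Finset

namespace Pool.Agent.H921Z.Herm

/-- Jensen polynomial -/
noncomputable def J (N : ℕ) (g : ℕ → ℝ) : ℝ[X] :=
  ∑ j ∈ range (N+1), C ((N.choose j : ℝ) * g j) * X ^ j

lemma J_coeff (N : ℕ) (g : ℕ → ℝ) (k : ℕ) : (J N g).coeff k = (N.choose k : ℝ) * g k := by
  unfold J
  rw [finsetSum_coeff]
  simp only [coeff_C_mul, coeff_X_pow, mul_ite, mul_one, mul_zero]
  rw [Finset.sum_ite_eq]
  split_ifs with h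
  · rfl
  · rw [Nat.choose_eq_zero_of_lt (by simpa using h)]; simp

lemma J_natDegree (N : ℕ) (g : ℕ → ℝ) : (J N g).natDegree ≤ N := by
  rw [natDegree_le_iff_coeff_eq_zero]
  intro k hk
  rw [J_coeff, Nat.choose_eq_zero_of_lt hk]; simp

lemma J_eq_zero (N : ℕ) (g : ℕ → ℝ) : J N g = 0 ↔ ∀ j ≤ N, g j = 0 := by
  constructor
  · intro h j hj
    have := J_coeff N g j
    rw [h, coeff_zero] at this
    have h2 : (N.choose j : ℝ) ≠ 0 := by exact_mod_cast (Nat.choose_pos hj).ne'
    exact (mul_eq_zero.1 this.symm).resolve_left h2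
  · intro h
    ext k
    rw [J_coeff, coeff_zero]
    by_cases hk : k ≤ N
    · simp [h k hk]
    · rw [Nat.choose_eq_zero_of_lt (by omega)]; simp

/-- all Jensen polynomials are real-rooted -/
def Jen (g : ℕ → ℝ) : Prop := ∀ N, RR (J N g)

/-- iterated forward difference -/
noncomputable def D (j : ℕ) (g : ℕ → ℝ) : ℕ → ℝ := (fwdDiff 1)^[j] g

lemma D_zero (g : ℕ → ℝ) : D 0 g = g := rfl

lemma D_succ (j : ℕ) (g : ℕ → ℝ) (m : ℕ) : D (j+1) g m = D j g (m+1) - D j g m := by
  unfold D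
  rw [Function.iterate_succ_apply']; rfl

lemma D_succ' (j : ℕ) (g : ℕ → ℝ) : D (j+1) g = D j (D 1 g) := by
  unfold D
  rw [Function.iterate_succ_apply]; rfl

lemma D_one (g : ℕ → ℝ) (m : ℕ) : D 1 g m = g (m+1) - g m := D_succ 0 g m

lemma D_shift (j : ℕ) (g : ℕ → ℝ) (m n : ℕ) : D j (fun i => g (i + m)) n = D j g (n + m) := by
  unfold D
  exact fwdDiff_iter_comp_add 1 g m j n

lemma D_sum (j : ℕ) (g : ℕ → ℝ) (m : ℕ) :
    D j g m = ∑ k ∈ range (j+1), (-1) ^ (j - k) * (j.choose k : ℝ) * g (m + k) := by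
  unfold D
  rw [fwdDiff_iter_eq_sum_shift]
  apply Finset.sum_congr rfl
  intro k _
  simp

lemma newton (g : ℕ → ℝ) (n : ℕ) : g n = ∑ k ∈ range (n+1), (n.choose k : ℝ) * D k g 0 := by
  have := shift_eq_sum_fwdDiff_iter 1 g n 0
  simpa [D] using this

lemma D_smul (j : ℕ) (c : ℝ) (g : ℕ → ℝ) (m : ℕ) : D j (fun n => c * g n) m = c * D j g m := by
  rw [D_sum, D_sum, Finset.mul_sum]
  apply Finset.sum_congr rfl
  intro k _
  ring

/-- binomial transform -/
noncomputable def Bt (g : ℕ → ℝ) : ℕ → ℝ := fun n => D n g 0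

noncomputable def F (N : ℕ) (g : ℕ → ℝ) (u z : ℂ) : ℂ :=
  ∑ j ∈ range (N+1), (N.choose j : ℂ) * ((g j : ℂ) * z ^ j * u ^ (N - j))

lemma F_succ (N : ℕ) (g : ℕ → ℝ) (u z : ℂ) :
    F (N+1) g u z = u * F N g u z + z * F N (fun j => g (j+1)) u z := by
  unfold F
  rw [Finset.sum_choose_succ_mul (fun i j => (g i : ℂ) * z ^ i * u ^ j), Finset.mul_sum,
    Finset.mul_sum]
  congr 1
  · apply Finset.sum_congr rfl
    intro j hj
    have : j ≤ N := by simpa [Nat.lt_succ_iff] using hj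
    rw [show N + 1 - j = (N - j) + 1 by omega]; ring
  · apply Finset.sum_congr rfl
    intro j _
    ring

lemma F_sub (N : ℕ) (g h : ℕ → ℝ) (u z : ℂ) :
    F N (fun j => g j - h j) u z = F N g u z - F N h u z := by
  unfold F
  rw [← Finset.sum_sub_distrib]
  apply Finset.sum_congr rfl
  intro j _
  push_cast; ring

lemma F_Bt (N : ℕ) : ∀ (g : ℕ → ℝ) (u z : ℂ), F N (Bt g) u z = F N g (u - z) z := by
  induction N with
  | zero => intro g u z; simp [F, Bt, D]
  | succ N ih =>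
    intro g u z
    rw [F_succ, F_succ]
    have : (fun j => Bt g (j+1)) = Bt (D 1 g) := by
      funext j; simp only [Bt]; rw [D_succ']
    rw [this, ih, ih]
    have h2 : D 1 g = fun j => g (j+1) - g j := by funext j; exact D_one g j
    rw [h2, F_sub]; ring

lemma F_J (N : ℕ) (g : ℕ → ℝ) (u z : ℂ) (hu : u ≠ 0) :
    F N g u z = u ^ N * aeval (z / u) (J N g) := by
  unfold F J
  rw [map_sum, Finset.mul_sum]
  apply Finset.sum_congr rfl
  intro j hj
  have : j ≤ N := by simpa [Nat.lt_succ_iff] using hj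
  obtain ⟨k, rfl⟩ := Nat.exists_eq_add_of_le this
  simp only [map_mul, aeval_C, map_pow, aeval_X, Nat.add_sub_cancel_left, map_natCast]
  rw [div_pow, pow_add]
  have : (algebraMap ℝ ℂ) (g j) = (g j : ℂ) := rfl
  rw [this]
  field_simp

lemma im_aux (c : ℝ) (z : ℂ) (hu : 1 + c * z ≠ 0) (h : (z / (1 + c * z)).im = 0) : z.im = 0 := by
  have h1 : Complex.normSq (1 + c * z) ≠ 0 := by simpa using hu
  rw [Complex.div_im] at h
  simp only [Complex.add_re, Complex.one_re, Complex.mul_re, Complex.ofReal_re, Complex.ofReal_im,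
    zero_mul, sub_zero, Complex.add_im, Complex.one_im, Complex.mul_im, add_zero, zero_add] at h
  field_simp at h
  linarith

lemma im_aux2 (c : ℝ) (hc : c ≠ 0) (z : ℂ) (hu : 1 + c * z = 0) : z.im = 0 := by
  have := congrArg Complex.im hu
  simpa [hc] using this

lemma Jen.bt {g : ℕ → ℝ} (h : Jen g) : Jen (Bt g) := by
  intro N
  rcases h N with h0 | h0
  · left
    rw [J_eq_zero] at h0 ⊢
    intro j hj
    simp only [Bt]
    rw [D_sum]
    apply Finset.sum_eq_zero
    intro k hk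
    rw [h0 _ (by simp at hk; omega)]; simp
  · right
    intro z hz
    have h1 := F_J N (Bt g) 1 z one_ne_zero
    rw [div_one, hz, mul_zero, F_Bt] at h1
    by_cases hu : 1 + ((-1 : ℝ) : ℂ) * z = 0
    · exact im_aux2 (-1) (by norm_num) z hu
    have e : 1 - z = 1 + ((-1 : ℝ) : ℂ) * z := by push_cast; ring
    rw [e, F_J _ _ _ _ hu] at h1
    exact im_aux (-1) z hu (h0 _ ((mul_eq_zero.1 h1).resolve_left (pow_ne_zero _ hu)))

lemma Jen.of_bt {g : ℕ → ℝ} (h : Jen (Bt g)) : Jen g := by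
  intro N
  rcases h N with h0 | h0
  · left
    rw [J_eq_zero] at h0 ⊢
    intro j hj
    rw [newton g j]
    apply Finset.sum_eq_zero
    intro k hk
    have := h0 k (by simp at hk; omega)
    simp only [Bt] at this
    rw [this]; simp
  · right
    intro z hz
    have h1 := F_J N g 1 z one_ne_zero
    rw [div_one, hz, mul_zero] at h1
    have h2 := F_Bt N g (1 + z) z
    rw [add_sub_cancel_right, h1] at h2
    by_cases hu : 1 + ((1 : ℝ) : ℂ) * z = 0
    · exact im_aux2 1 (by norm_num) z hu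
    have e : 1 + z = 1 + ((1 : ℝ) : ℂ) * z := by push_cast; ring
    rw [e, F_J _ _ _ _ hu] at h2
    exact im_aux 1 z hu (h0 _ ((mul_eq_zero.1 h2).resolve_left (pow_ne_zero _ hu)))

lemma Jen.shift1 {g : ℕ → ℝ} (h : Jen g) : Jen (fun j => g (j+1)) := by
  intro N
  have h1 := (h (N+1)).deriv
  have : derivative (J (N+1) g) = C ((N:ℝ)+1) * J N (fun j => g (j+1)) := by
    ext k
    rw [coeff_derivative, coeff_C_mul, J_coeff, J_coeff]
    have := Nat.add_one_mul_choose_eq N k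
    have h3 : ((N:ℝ)+1) * (N.choose k : ℝ) = ((N+1).choose (k+1) : ℝ) * ((k:ℝ)+1) := by
      exact_mod_cast this
    linear_combination (-g (k+1)) * h3
  rw [this] at h1
  exact RR.of_smul (by positivity) h1

lemma Jen.shift {g : ℕ → ℝ} (h : Jen g) (m : ℕ) : Jen (fun j => g (j+m)) := by
  induction m with
  | zero => simpa
  | succ m ih =>
    have := ih.shift1
    have e : (fun j => g (j + (m+1))) = fun j => g (j + 1 + m) := by
      funext j; congr 1; omega
    rw [e]; exact this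

lemma Jen.diff {g : ℕ → ℝ} (h : Jen g) : Jen (D 1 g) := by
  apply Jen.of_bt
  have : Bt (D 1 g) = fun j => Bt g (j+1) := by
    funext j; exact (congrFun (D_succ' j g) 0).symm
  rw [this]
  exact h.bt.shift1

lemma Jen.btm {g : ℕ → ℝ} (h : Jen g) (m : ℕ) : Jen (fun j => D j g m) := by
  have := (h.shift m).bt
  have e : Bt (fun j => g (j + m)) = fun j => D j g m := by
    funext j; simp only [Bt]; rw [D_shift, zero_add]
  rwa [e] at this

lemma Jen.scale {g : ℕ → ℝ} (h : Jen g) (s u : ℝ) (hu : u ≠ 0) :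
    Jen (fun j => s * u ^ j * g j) := by
  intro N
  have h1 := ((h N).comp hu 0).smul s
  have : C s * (J N g).comp (C u * X + C 0) = J N (fun j => s * u ^ j * g j) := by
    ext k
    rw [C_0, add_zero, coeff_C_mul, comp_C_mul_X_coeff, J_coeff, J_coeff]; ring
  rwa [this] at h1

/-- factorisation of a Jensen polynomial, with the first power sums -/
lemma Jen.fac {g : ℕ → ℝ} (h : Jen g) (h0 : g 0 ≠ 0) (N : ℕ) :
    ∃ s : Multiset ℝ, Multiset.card s = N ∧ J N g = C (g 0) * P s ∧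
      g 0 * s.sum = N * g 1 ∧
      g 0 * (s.sum ^ 2 - (s.map (· ^ 2)).sum) = N * (N - 1) * g 2 := by
  have c0 : (J N g).coeff 0 = g 0 := by rw [J_coeff]; simp
  obtain ⟨s, hs, he⟩ := Herm.fac N (J N g) (h N) (by rw [c0]; exact h0) (J_natDegree N g)
  rw [c0] at he
  refine ⟨s, hs, he, ?_, ?_⟩
  · have := J_coeff N g 1
    rw [he, coeff_C_mul, P_coeff1] at this
    simpa using this
  · have := J_coeff N g 2
    rw [he, coeff_C_mul] at this
    rw [← P_coeff2, Nat.cast_choose_two] at *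
    linarith

lemma Jen.turan {g : ℕ → ℝ} (h : Jen g) (m : ℕ) : g m * g (m+2) ≤ g (m+1) ^ 2 := by
  by_cases h0 : g m = 0
  · rw [h0, zero_mul]; positivity
  obtain ⟨s, hs, _, e1, e2⟩ := (h.shift m).fac (by simpa using h0) 2
  obtain ⟨a, b, rfl⟩ := Multiset.card_eq_two.1 hs
  simp only [zero_add, add_comm 1 m, add_comm 2 m] at e1 e2
  simp at e1 e2
  have e3 : g (m+1) = g m * (a + b) / 2 := by linarith
  have e4 : g (m+2) = g m * (a * b) := by linarith
  rw [e3, e4]
  nlinarith [sq_nonneg (g m * (a - b))]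

lemma Jen.gap {g : ℕ → ℝ} (h : Jen g) (m : ℕ) (h0 : g m ≠ 0) (h1 : g (m+1) = 0)
    (h2 : g (m+2) = 0) (j : ℕ) (hj : m < j) : g j = 0 := by
  have := (h j).gap m (by
      rw [J_coeff]
      exact mul_ne_zero (by exact_mod_cast (Nat.choose_pos hj.le).ne') h0)
    (by rw [J_coeff, h1, mul_zero]) (by rw [J_coeff, h2, mul_zero]) j hj
  rw [J_coeff] at this
  simpa using this

end Pool.Agent.H921Z.Herm
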