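import Pool.Agent.H921Z.Herm.QForm

set_option autoImplicit false

open Polynomial Finset Filter Topology

namespace Pool.Agent.H921Z.Herm

/-- classical multiplier sequence -/
def Mult (γ : ℕ → ℝ) : Prop :=
  ∀ p : ℝ[X], RR p → RR (∑ n ∈ range (p.natDegree + 1), C (γ n * p.coeff n) * X ^ n)

lemma mult_coeff (γ : ℕ → ℝ) (p : ℝ[X]) (k : ℕ) :
    (∑ n ∈ range (p.natDegree + 1), C (γ n * p.coeff n) * X ^ n).coeff k = γ k * p.coeff k := by
  rw [finsetSum_coeff]
  simp only [coeff_C_mul, coeff_X_pow, mul_ite, mul_one, mul_zero]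
  rw [Finset.sum_ite_eq]
  split_ifs with h
  · rfl
  · rw [coeff_eq_zero_of_natDegree_lt (by simpa using h)]; simp

lemma Mult.jen {γ : ℕ → ℝ} (h : Mult γ) : Jen γ := by
  intro N
  have h1 := h ((X + 1) ^ N) (by
    right
    intro z hz
    simp only [map_pow, map_add, aeval_X, map_one] at hz
    have := congrArg Complex.im (pow_eq_zero_iff'.1 hz).1
    simpa using this)
  convert h1 using 1
  ext k
  rw [mult_coeff, J_coeff, coeff_X_add_one_pow, mul_comm]

lemma Mult.two {γ : ℕ → ℝ} (h : Mult γ) (n : ℕ) : 0 ≤ γ n * γ (n+2) := by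
  have h1 := h (X ^ n - X ^ (n+2)) (by
    right
    intro z hz
    simp only [map_sub, map_pow, aeval_X] at hz
    have : z ^ n * ((1 - z) * (1 + z)) = 0 := by rw [← hz]; ring
    rcases mul_eq_zero.1 this with h | h
    · rw [(pow_eq_zero_iff'.1 h).1]; simp
    · rcases mul_eq_zero.1 h with h | h
      · have := congrArg Complex.im h; simpa using this
      · have := congrArg Complex.im h; simpa using this)
  have h2 := h1.turan n (by rw [mult_coeff]; simp [coeff_X_pow])
  rw [mult_coeff, mult_coeff] at h2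
  simp [coeff_X_pow] at h2
  linarith

lemma Mult.sign {γ : ℕ → ℝ} (h : Mult γ) :
    ∃ s u : ℝ, (s = 1 ∨ s = -1) ∧ (u = 1 ∨ u = -1) ∧ ∀ n, 0 ≤ s * u ^ n * γ n := by
  have key : ∀ r, ∃ e : ℝ, (e = 1 ∨ e = -1) ∧ ∀ l, 0 ≤ e * γ (r + 2 * l) := by
    intro r
    apply one_sign (fun l => γ (r + 2 * l))
    · intro l; exact h.two _
    · intro l h0 h1 j hj
      have h1' : γ (r + 2 * l + 2) = 0 := h1
      by_cases h2 : γ (r + 2 * l + 1) = 0
      · exact h.jen.gap _ h0 h2 h1' _ (by omega)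
      · have t := h.jen.turan (r + 2 * l + 1)
        have t2 := h.two (r + 2 * l + 1)
        rw [show r + 2 * l + 1 + 1 = r + 2 * l + 2 by ring, h1'] at t
        have t3 : γ (r + 2 * l + 1) * γ (r + 2 * l + 1 + 2) = 0 := by nlinarith
        exact h.jen.gap _ h2 h1' ((mul_eq_zero.1 t3).resolve_left h2) _ (by omega)
  obtain ⟨e0, h0, g0⟩ := key 0
  obtain ⟨e1, h1, g1⟩ := key 1
  refine ⟨e0, e0 * e1, h0, ?_, fun n => ?_⟩
  · rcases h0 with h0 | h0 <;> rcases h1 with h1 | h1 <;> rw [h0, h1] <;> norm_num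
  · have hu : (e0 * e1) ^ 2 = 1 := by
      rcases h0 with h0 | h0 <;> rcases h1 with h1 | h1 <;> rw [h0, h1] <;> norm_num
    have h00 : e0 * e0 = 1 := by rcases h0 with h0 | h0 <;> rw [h0] <;> norm_num
    obtain ⟨l, rfl | rfl⟩ := Nat.even_or_odd' n
    · rw [pow_mul, hu, one_pow, mul_one]; simpa using g0 l
    · rw [pow_succ, pow_mul, hu, one_pow, one_mul, ← mul_assoc, h00, one_mul, add_comm]
      exact g1 l

lemma RR.stab {p : ℝ[X]} (h : RR p) : Stab (p.map (algebraMap ℝ ℂ)) := by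
  rcases h with h | h
  · left; simp [h]
  · right; intro z hz; exact (h z (by rw [aeval_eq]; exact hz)).le

lemma Stab.rr {p : ℝ[X]} (h : Stab (p.map (algebraMap ℝ ℂ))) : RR p := by
  rcases h with h | h
  · left; exact (Polynomial.map_eq_zero_iff (algebraMap ℝ ℂ).injective).1 h
  · right
    intro z hz
    have h1 := h z (by rw [← aeval_eq]; exact hz)
    have h2 := h (starRingEnd ℂ z) (by rw [← aeval_eq, aeval_conj, hz]; simp)
    simp at h2
    linarith

lemma He_map (n : ℕ) : (He ℝ n).map (algebraMap ℝ ℂ) = He ℂ n := by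
  rw [He, He, Polynomial.map_map]
  congr 1

lemma He_comp (u : ℝ) (hu : u = 1 ∨ u = -1) (n : ℕ) :
    (He ℝ n).comp (C u * X + C 0) = C (u ^ n) * He ℝ n := by
  rcases hu with rfl | rfl
  · simp
  ext k
  rw [C_0, add_zero, comp_C_mul_X_coeff, coeff_C_mul]
  rcases Nat.even_or_odd (n + k) with h | h
  · rw [mul_comm]
    congr 1
    rcases Nat.even_or_odd n with h2 | h2
    · rw [h2.neg_one_pow, ((Nat.even_add.1 h).1 h2).neg_one_pow]
    · rw [h2.neg_one_pow, Odd.neg_one_pow]
      rw [Nat.odd_iff] at h2 ⊢; rw [Nat.even_iff] at h; omega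
  · rw [He, coeff_map, coeff_hermite_of_odd_add h]; simp

theorem main_He (T : ℝ[X] →ₗ[ℝ] ℝ[X]) (γ : ℕ → ℝ) (Q : ℕ → ℝ[X])
    (hT : ∀ n, T (He ℝ n) = γ n • He ℝ n) (hM : Mult γ)
    (hQ : ∀ p : ℝ[X], T p = ∑ k ∈ range (p.natDegree + 1), Q k * derivative^[k] p)
    (hR : ∀ k, RR (Q k)) (p : ℝ[X]) (hp : RR p) : RR (T p) := by
  obtain ⟨s, u, hs, hu, hg⟩ := hM.sign
  set g : ℕ → ℝ := fun n => s * u ^ n * γ n with hgdef
  have hu0 : u ≠ 0 := by rcases hu with h | h <;> rw [h] <;> norm_num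
  have hJ : Jen g := hM.jen.scale s u hu0
  have hγ : ∀ n, γ n = s * (u ^ n * g n) := by
    intro n
    have h1 : s * s = 1 := by rcases hs with h | h <;> rw [h] <;> norm_num
    have h2 : u ^ n * u ^ n = 1 := by
      rw [← mul_pow]; rcases hu with h | h <;> rw [h] <;> norm_num
    simp only [hgdef]
    linear_combination (-γ n * u ^ n * u ^ n) * h1 - γ n * h2
  by_cases hm : ∀ n, g n ≤ g (n+1)
  · have hH : HM g := HM_of_bt hJ (fun k => hJ.all_diff k hg hm 0)
    have key : ∀ q : ℝ[X], (T q).map (algebraMap ℝ ℂ) =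
        (s:ℂ) • TC g ((q.comp (C u * X + C 0)).map (algebraMap ℝ ℂ)) := by
      intro q
      have hq := (HeB ℝ).mem_span q
      induction hq using Submodule.span_induction with
      | mem x hx =>
        obtain ⟨n, rfl⟩ := hx
        rw [HeB_apply, hT, He_comp u hu, smul_eq_C_mul, Polynomial.map_mul, Polynomial.map_mul,
          He_map, map_C, map_C, ← smul_eq_C_mul, ← smul_eq_C_mul, map_smul, TC_He, smul_smul,
          smul_smul, hγ n]
        congr 1
        simp [mul_assoc]
      | zero => simp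
      | add x y _ _ hx hy =>
        rw [map_add, Polynomial.map_add, hx, hy, add_comp, Polynomial.map_add, map_add, smul_add]
      | smul a x _ hx =>
        rw [map_smul, smul_comp, smul_eq_C_mul, smul_eq_C_mul a, Polynomial.map_mul,
          Polynomial.map_mul, hx, map_C, ← smul_eq_C_mul ((algebraMap ℝ ℂ) a),
          ← smul_eq_C_mul ((algebraMap ℝ ℂ) a), map_smul, smul_comm]
    apply Stab.rr
    rw [key]
    exact (hH _ (hp.comp hu0 0).stab).smul _
  · exfalso
    push Not at hm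
    obtain ⟨n, hn⟩ := hm
    have hn0 : 0 < g n := lt_of_le_of_lt (hg _) hn
    have hq : ∀ k, RR (qq (Bt γ) k) := fun k => by rw [← Q_eq T γ Q hT hQ k]; exact hR k
    choose e he hE using fun k => qq_sign (Bt γ) k (hq k)
    set ρ := max (g (n+1) / g n) (1/2) with hρ
    have hρ0 : 0 < ρ := lt_of_lt_of_le (by norm_num) (le_max_right _ _)
    have hρ1 : ρ < 1 := max_lt (by rw [div_lt_one hn0]; exact hn) (by norm_num)
    have hrat := hJ.ratio hg n hn0 ρ (by
      rw [← div_le_iff₀ hn0]; exact le_max_left _ _)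
    obtain ⟨C0, _, hC⟩ := geom hg n ρ hρ0 hrat
    have habs : ∀ j, |γ j| ≤ C0 * ρ ^ j := by
      intro j
      have a1 : |s| = 1 := by rcases hs with h | h <;> rw [h] <;> norm_num
      have a2 : |u| = 1 := by rcases hu with h | h <;> rw [h] <;> norm_num
      rw [hγ j, abs_mul, abs_mul, abs_pow, a1, a2, one_pow, one_mul, one_mul,
        abs_of_nonneg (hg j)]
      exact hC j
    have hN : NoRun (Bt (fun j => u ^ j * g j)) := by
      rcases hu with h | h
      · have : (fun j => u ^ j * g j) = g := by funext j; rw [h]; simp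
        rw [this]; exact hJ.norun hg n hn
      · have : (fun j => u ^ j * g j) = fun j => (-1) ^ j * g j := by funext j; rw [← h]
        rw [this]; exact norun_alt g hg n hn0
    have hN2 : NoRun (Bt γ) := by
      obtain ⟨A0, hA⟩ := hN
      refine ⟨A0, fun a ha t ht hw => hA a ha (t * s) ?_ (fun k h1 h2 => ?_)⟩
      · rcases hs with h | h <;> rcases ht with h' | h' <;> rw [h, h'] <;> norm_num
      · have := hw k h1 h2
        have e1 : γ = fun j => s * (u ^ j * g j) := funext hγ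
        simp only [Bt] at this ⊢
        rw [e1, D_smul] at this
        rwa [mul_assoc]
    exact growth (Bt γ) e he hE hN2 C0 (ρ + 1) (by linarith) (by linarith)
      (fun k => bt_bound γ C0 ρ habs k)

/-- dilation of the variable -/
noncomputable def S (a : ℝ) : ℝ[X] →ₗ[ℝ] ℝ[X] where
  toFun p := p.comp (C a * X)
  map_add' p q := add_comp
  map_smul' c p := by simp [smul_comp]

lemma S_apply (a : ℝ) (p : ℝ[X]) : S a p = p.comp (C a * X) := rfl

lemma S_S (a b : ℝ) (hab : a * b = 1) (p : ℝ[X]) : S b (S a p) = p := by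
  rw [S_apply, S_apply, comp_assoc]
  simp only [mul_comp, C_comp, X_comp]
  rw [← mul_assoc, ← C_mul, hab]; simp

lemma S_rr (a : ℝ) (ha : a ≠ 0) {p : ℝ[X]} (h : RR p) : RR (S a p) := by
  have := h.comp ha 0
  rwa [C_0, add_zero] at this

lemma S_iter (a : ℝ) (k : ℕ) (p : ℝ[X]) :
    derivative^[k] (S a p) = C (a ^ k) * S a (derivative^[k] p) := by
  induction k with
  | zero => simp
  | succ k ih =>
    rw [Function.iterate_succ_apply', ih, derivative_C_mul, Function.iterate_succ_apply',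
      S_apply, S_apply, derivative_comp, pow_succ, C_mul]
    simp [mul_assoc]

theorem main (a : ℝ) (ha : a ≠ 0) (T : ℝ[X] →ₗ[ℝ] ℝ[X]) (γ : ℕ → ℝ) (Q : ℕ → ℝ[X])
    (hT : ∀ n, T (S a (He ℝ n)) = γ n • S a (He ℝ n)) (hM : Mult γ)
    (hQ : ∀ p : ℝ[X], T p = ∑ k ∈ range (p.natDegree + 1), Q k * derivative^[k] p)
    (hR : ∀ k, RR (Q k)) (p : ℝ[X]) (hp : RR p) : RR (T p) := by
  have i1 : a * a⁻¹ = 1 := mul_inv_cancel₀ ha
  have i2 : a⁻¹ * a = 1 := inv_mul_cancel₀ ha
  have h := main_He ((S a⁻¹).comp (T.comp (S a))) γ (fun k => C (a ^ k) * S a⁻¹ (Q k))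
    (by
      intro n
      simp only [LinearMap.comp_apply]
      rw [hT, map_smul, S_S _ _ i1])
    hM
    (by
      intro q
      simp only [LinearMap.comp_apply]
      have hd : (S a q).natDegree = q.natDegree := by
        rw [S_apply, natDegree_comp, natDegree_C_mul_X a ha, mul_one]
      rw [hQ, hd, map_sum]
      apply Finset.sum_congr rfl
      intro k _
      rw [S_iter, S_apply, mul_comp, mul_comp, C_comp, ← S_apply, ← S_apply, S_S _ _ i1]
      ring)
    (fun k => (S_rr _ (inv_ne_zero ha) (hR k)).smul _) (S a⁻¹ p) (S_rr _ (inv_ne_zero ha) hp)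
  simp only [LinearMap.comp_apply] at h
  rw [S_S _ _ i2] at h
  have h2 := S_rr a ha h
  rwa [S_S _ _ i2] at h2

end Pool.Agent.H921Z.Herm
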