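import Pool.Agent.H921Z.Herm.Stab
import Pool.Agent.H921Z.Herm.Growth

set_option autoImplicit false

open Polynomial Finset Filter Topology
open scoped Nat

namespace Pool.Agent.H921Z.Herm

lemma A_iter (j : ℕ) (p : ℝ[X]) : (A ℝ)^[j] p =
    ∑ i ∈ range (j+1), (j.choose i : ℝ[X]) * ((-1) ^ i * He ℝ (j - i) * derivative^[i] p) := by
  induction j with
  | zero => simp [He_zero]
  | succ j ih =>
    rw [Function.iterate_succ_apply', ih,
      Finset.sum_choose_succ_mul (fun i m => (-1) ^ i * He ℝ m * derivative^[i] p), map_sum,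
      ← Finset.sum_add_distrib]
    apply Finset.sum_congr rfl
    intro i hi
    have : i ≤ j := by simpa [Nat.lt_succ_iff] using hi
    rw [show j + 1 - i = (j - i) + 1 by omega, He_succ, A_apply, A_apply,
      Function.iterate_succ_apply']
    have hd : derivative ((-1 : ℝ[X]) ^ i) = 0 := by
      rcases neg_one_pow_eq_or ℝ[X] i with h | h <;> rw [h] <;> simp
    simp only [derivative_mul, derivative_natCast, hd]
    ring

lemma A_iter_He (j m : ℕ) : (A ℝ)^[j] (He ℝ m) = He ℝ (m + j) := by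
  induction j with
  | zero => simp
  | succ j ih => rw [Function.iterate_succ_apply', ih, ← He_succ]; rfl

lemma D_iter_He (j n : ℕ) :
    derivative^[j] (He ℝ n) = C (n.descFactorial j : ℝ) * He ℝ (n - j) := by
  induction j with
  | zero => simp
  | succ j ih =>
    rw [Function.iterate_succ_apply', ih, derivative_C_mul, He_deriv, Nat.descFactorial_succ,
      smul_eq_C_mul, ← mul_assoc, ← C_mul, Nat.sub_sub]
    push_cast
    rw [mul_comm (n.descFactorial j : ℝ)]

lemma A_iter_C (j : ℕ) (c : ℝ) (p : ℝ[X]) : (A ℝ)^[j] (C c * p) = C c * (A ℝ)^[j] p := by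
  induction j with
  | zero => simp
  | succ j ih =>
    rw [Function.iterate_succ_apply', ih, Function.iterate_succ_apply', ← smul_eq_C_mul,
      map_smul, smul_eq_C_mul]

noncomputable def G (b : ℕ → ℝ) (i j : ℕ) : ℝ[X] :=
  if i ≤ j then C ((-1) ^ i * b j / (i ! * (j - i) !)) * He ℝ (j - i) else 0

/-- the coefficient polynomials of the Hermite diagonal operator -/
noncomputable def qq (b : ℕ → ℝ) (k : ℕ) : ℝ[X] := ∑ i ∈ range (k+1), G b i (k - i)

lemma He_natDegree (n : ℕ) : (He ℝ n).natDegree = n :=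
  natDegree_eq_of_degree_eq_some (He_degree ℝ n)

lemma qq_He (g : ℕ → ℝ) (n : ℕ) :
    ∑ k ∈ range (n+1), qq (Bt g) k * derivative^[k] (He ℝ n) = g n • He ℝ n := by
  have l1 : ∑ k ∈ range (n+1), qq (Bt g) k * derivative^[k] (He ℝ n) =
      ∑ k ∈ range (n+1), ∑ i ∈ range (k+1),
        G (Bt g) i (k - i) * derivative^[i + (k - i)] (He ℝ n) := by
    apply Finset.sum_congr rfl
    intro k _
    rw [qq, Finset.sum_mul]
    apply Finset.sum_congr rfl
    intro i hi
    have : i ≤ k := by simpa [Nat.lt_succ_iff] using hi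
    rw [show i + (k - i) = k by omega]
  rw [l1, Finset.sum_range_diag_flip (n+1)
    (fun i j => G (Bt g) i j * derivative^[i + j] (He ℝ n))]
  have l2 : ∀ i ∈ range (n+1),
      ∑ j ∈ range (n + 1 - i), G (Bt g) i j * derivative^[i + j] (He ℝ n) =
      ∑ j ∈ range (n + 1), G (Bt g) i j * derivative^[i + j] (He ℝ n) := by
    intro i _
    apply Finset.sum_subset (Finset.range_subset_range.2 (by omega))
    intro j _ hj
    rw [iterate_derivative_eq_zero (by rw [He_natDegree]; simp at hj; omega), mul_zero]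
  rw [Finset.sum_congr rfl l2, Finset.sum_comm, newton g n, Finset.sum_smul]
  apply Finset.sum_congr rfl
  intro j hj
  have hjn : j ≤ n := by simpa [Nat.lt_succ_iff] using hj
  have l3 : ∑ i ∈ range (n+1), G (Bt g) i j * derivative^[i + j] (He ℝ n) =
      ∑ i ∈ range (j+1), G (Bt g) i j * derivative^[i + j] (He ℝ n) := by
    symm
    apply Finset.sum_subset (Finset.range_subset_range.2 (by omega))
    intro i _ hi
    rw [G, if_neg (by simp at hi; omega), zero_mul]
  have l4 := A_iter j (derivative^[j] (He ℝ n))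
  rw [D_iter_He j n, A_iter_C, A_iter_He, Nat.sub_add_cancel hjn, ← D_iter_He] at l4
  have l5 : ((n.choose j : ℝ) * D j g 0) • He ℝ n =
      C (D j g 0 / j !) * (C (n.descFactorial j : ℝ) * He ℝ n) := by
    rw [smul_eq_C_mul, ← mul_assoc, ← C_mul, Nat.descFactorial_eq_factorial_mul_choose]
    congr 2
    push_cast
    field_simp
  rw [l3, l5, l4, Finset.mul_sum]
  apply Finset.sum_congr rfl
  intro i hi
  have hij : i ≤ j := by simpa [Nat.lt_succ_iff] using hi
  rw [G, if_pos hij, Function.iterate_add_apply]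
  have l6 : (C ((-1) ^ i * Bt g j / (i ! * (j - i) !)) : ℝ[X]) =
      C (D j g 0 / j !) * (j.choose i : ℝ[X]) * (-1) ^ i := by
    have e1 : (j.choose i : ℝ[X]) = C (j.choose i : ℝ) := by simp
    have e2 : ((-1) ^ i : ℝ[X]) = C ((-1) ^ i) := by simp
    rw [e1, e2, ← C_mul, ← C_mul, Nat.cast_choose ℝ hij]
    congr 1
    simp only [Bt]
    field_simp
  rw [l6]; ring

lemma Q_eq (T : ℝ[X] →ₗ[ℝ] ℝ[X]) (g : ℕ → ℝ) (Q : ℕ → ℝ[X])
    (hT : ∀ n, T (He ℝ n) = g n • He ℝ n)
    (hQ : ∀ p : ℝ[X], T p = ∑ k ∈ range (p.natDegree + 1), Q k * derivative^[k] p) (k : ℕ) :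
    Q k = qq (Bt g) k := by
  have key : ∀ N, ∀ p ∈ degreeLE ℝ (N : ℕ),
      T p = ∑ k ∈ range (N + 1), qq (Bt g) k * derivative^[k] p := by
    intro N p hp
    rw [← (HeS ℝ).span_degreeLE (m := N) (fun i _ => by
      have : ((HeS ℝ) i).leadingCoeff = 1 := He_monic ℝ i
      rw [this]; exact isUnit_one)] at hp
    induction hp using Submodule.span_induction with
    | mem x hx =>
      obtain ⟨n, hn, rfl⟩ := hx
      show T (He ℝ n) = ∑ k ∈ range (N + 1), qq (Bt g) k * derivative^[k] (He ℝ n)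
      rw [hT, ← qq_He]
      apply Finset.sum_subset (Finset.range_subset_range.2 (by simp at hn; omega))
      intro j _ hj
      rw [iterate_derivative_eq_zero (by rw [He_natDegree]; simp at hj; omega), mul_zero]
    | zero => simp
    | add x y _ _ hx hy =>
      rw [map_add, hx, hy, ← Finset.sum_add_distrib]
      apply Finset.sum_congr rfl
      intro k _
      rw [← mul_add, iterate_map_add]
    | smul a x _ hx =>
      rw [map_smul, hx, Finset.smul_sum]
      apply Finset.sum_congr rfl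
      intro k _
      rw [iterate_derivative_smul, mul_smul_comm]
  induction k using Nat.strong_induction_on with
  | _ k ih =>
    have h1 := key k (X ^ k) (by rw [mem_degreeLE]; exact degree_X_pow_le k)
    rw [hQ, natDegree_X_pow, Finset.sum_range_succ, Finset.sum_range_succ,
      Finset.sum_congr rfl (fun i hi => by rw [ih i (Finset.mem_range.1 hi)])] at h1
    have h2 := add_left_cancel h1
    apply mul_right_cancel₀ _ h2
    rw [iterate_derivative_X_pow_eq_C_mul]
    apply mul_ne_zero _ (pow_ne_zero _ X_ne_zero)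
    rw [C_ne_zero]
    exact_mod_cast (Nat.descFactorial_pos.2 le_rfl).ne'

lemma He_coeff (l m : ℕ) :
    (He ℝ (l + 2 * m)).coeff l = (-1) ^ m * ((l + 2 * m) ! : ℝ) / (2 ^ m * m ! * l !) := by
  rw [He, coeff_map, add_comm l, coeff_hermite_explicit]
  have h1 : ((2 * m - 1)‼ : ℝ) * (2 ^ m * m !) = (2 * m) ! := by
    cases m with
    | zero => simp
    | succ m =>
      have a := Nat.factorial_eq_mul_doubleFactorial (2 * m + 1)
      have b := Nat.doubleFactorial_two_mul (m+1)
      rw [show 2 * (m+1) - 1 = 2 * m + 1 by omega, show 2 * (m+1) = 2 * m + 1 + 1 by omega, a,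
        show 2 * m + 1 + 1 = 2 * (m+1) by omega, b]
      push_cast; ring
  simp only [eq_intCast, Int.cast_mul, Int.cast_pow, Int.cast_neg, Int.cast_one, Int.cast_natCast]
  rw [Nat.cast_choose ℝ (by omega), Nat.add_sub_cancel, ← h1]
  have : ((2 * m - 1)‼ : ℝ) ≠ 0 := by
    intro h
    rw [h, zero_mul] at h1
    exact absurd h1.symm (by positivity)
  field_simp

lemma E_sum (b : ℕ → ℝ) (j : ℕ) : ∀ k,
    E b j k = ∑ i ∈ range (j+1), (j.choose i : ℝ) * (2 ^ i * b (k - i)) := by
  induction j with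
  | zero => intro k; simp [E]
  | succ j ih =>
    intro k
    rw [Finset.sum_choose_succ_mul (fun i _ => (2:ℝ) ^ i * b (k - i))]
    simp only [E]
    rw [ih, ih, Finset.mul_sum]
    congr 1
    apply Finset.sum_congr rfl
    intro i _
    rw [Nat.sub_sub, add_comm 1 i]; ring

lemma qq_coeff (b : ℕ → ℝ) (l j : ℕ) :
    (qq b (l + 2 * j)).coeff l = (-1) ^ j * E b j (l + 2 * j) / (2 ^ j * j ! * l !) := by
  rw [qq, finsetSum_coeff, E_sum, Finset.mul_sum, Finset.sum_div]
  symm
  apply Finset.sum_subset_zero_on_sdiff (Finset.range_subset_range.2 (by omega))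
  · intro i hi
    simp at hi
    rw [G]
    split_ifs
    · rw [coeff_C_mul, coeff_eq_zero_of_natDegree_lt (by rw [He_natDegree]; omega), mul_zero]
    · simp
  · intro i hi
    have hij : i ≤ j := by simpa [Nat.lt_succ_iff] using hi
    obtain ⟨m, rfl⟩ := Nat.exists_eq_add_of_le hij
    rw [G, if_pos (by omega), coeff_C_mul, show l + 2 * (i + m) - i - i = l + 2 * m by omega,
      He_coeff, Nat.cast_choose ℝ hij, Nat.add_sub_cancel_left, pow_add, pow_add]
    field_simp

lemma qq_coeff_odd (b : ℕ → ℝ) (k l : ℕ) (h : Odd (k + l)) : (qq b k).coeff l = 0 := by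
  rw [qq, finsetSum_coeff]
  apply Finset.sum_eq_zero
  intro i _
  rw [G]
  split_ifs with hi
  · rw [coeff_C_mul, He, coeff_map, coeff_hermite_of_odd_add]
    · simp
    · rw [Nat.odd_iff] at h ⊢; omega
  · simp

lemma qq_sign (b : ℕ → ℝ) (k : ℕ) (h : RR (qq b k)) :
    ∃ e : ℝ, (e = 1 ∨ e = -1) ∧ ∀ j, 2 * j ≤ k → 0 ≤ e * E b j k := by
  have hodd : ∀ l, (qq b k).coeff (k % 2 + 2 * l + 1) = 0 := by
    intro l; apply qq_coeff_odd; rw [Nat.odd_iff]; omega
  obtain ⟨e, he, hd⟩ := one_sign (fun l => (-1) ^ l * (qq b k).coeff (k % 2 + 2 * l)) (by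
      intro l
      have := h.turan _ (hodd l)
      rw [show k % 2 + 2 * (l+1) = k % 2 + 2 * l + 2 by ring, pow_succ]
      rcases neg_one_pow_eq_or ℝ l with h | h <;> rw [h] <;> linarith)
    (by
      intro l h0 h1 j hj
      have a0 : (qq b k).coeff (k % 2 + 2 * l) ≠ 0 := by
        intro h; apply h0; simp [h]
      have a1 : (qq b k).coeff (k % 2 + 2 * l + 2) = 0 := by
        rw [show k % 2 + 2 * (l+1) = k % 2 + 2 * l + 2 by ring] at h1
        simpa using h1
      rw [h.gap _ a0 (hodd l) a1 _ (by omega), mul_zero])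
  refine ⟨e * (-1) ^ (k / 2), ?_, fun j hj => ?_⟩
  · rcases neg_one_pow_eq_or ℝ (k/2) with h | h <;> rw [h] <;> rcases he with he | he <;>
      rw [he] <;> norm_num
  · obtain ⟨l, hl⟩ : ∃ l, k / 2 = l + j := ⟨k / 2 - j, by omega⟩
    have h1 := hd l
    have h2 := qq_coeff b (k % 2 + 2 * l) j
    rw [show k % 2 + 2 * l + 2 * j = k by omega] at h2
    simp only [h2] at h1
    rw [hl, pow_add]
    have p : (0:ℝ) < 2 ^ j * j ! * (k % 2 + 2 * l) ! := by positivity
    rw [← mul_div_assoc, ← mul_div_assoc, le_div_iff₀ p, zero_mul] at h1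
    linarith

end Pool.Agent.H921Z.Herm
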