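import Mathlib

set_option autoImplicit false

open Polynomial

namespace Pool.Agent.H921Z.Herm

/-- zero, or only real zeros -/
def RR (p : ℝ[X]) : Prop := p = 0 ∨ ∀ z : ℂ, aeval z p = 0 → z.im = 0

lemma aeval_eq (z : ℂ) (p : ℝ[X]) : aeval z p = (p.map (algebraMap ℝ ℂ)).eval z := by
  rw [eval_map_algebraMap]

lemma gl {K : Set ℂ} (hK : Convex ℝ K) (f : ℂ[X])
    (h : f = 0 ∨ ∀ z, f.eval z = 0 → z ∈ K) :
    derivative f = 0 ∨ ∀ z, (derivative f).eval z = 0 → z ∈ K := by
  by_cases h0 : derivative f = 0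
  · exact Or.inl h0
  right
  intro z hz
  have hf : f ≠ 0 := by rintro rfl; simp at h0
  have hdeg : 0 < f.degree := by
    by_contra hc
    push Not at hc
    rw [eq_C_of_degree_le_zero hc] at h0
    simp at h0
  have h1 := rootSet_derivative_subset_convexHull_rootSet (P := f) hdeg
  have h2 : z ∈ f.derivative.rootSet ℂ := by
    rw [mem_rootSet]; exact ⟨h0, by simpa using hz⟩
  have h3 : f.rootSet ℂ ⊆ K := by
    intro w hw
    rw [mem_rootSet] at hw
    rcases h with h | h
    · exact absurd h hf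
    · exact h w (by simpa using hw.2)
  exact convexHull_min h3 hK (h1 h2)

lemma convex_real : Convex ℝ {z : ℂ | z.im = 0} := by
  intro x hx y hy a b _ _ _
  simp only [Set.mem_setOf_eq] at hx hy ⊢
  simp [hx, hy]

lemma convex_low : Convex ℝ {z : ℂ | z.im ≤ 0} := by
  intro x hx y hy a b ha hb _
  simp only [Set.mem_setOf_eq] at hx hy ⊢
  simp only [Complex.add_im, Complex.real_smul, Complex.mul_im, Complex.ofReal_re,
    Complex.ofReal_im, zero_mul, add_zero]
  nlinarith

lemma RR.deriv {p : ℝ[X]} (h : RR p) : RR (derivative p) := by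
  have h1 := gl convex_real (p.map (algebraMap ℝ ℂ)) (by
    rcases h with h | h
    · left; simp [h]
    · right; intro z hz; exact h z (by rw [aeval_eq]; exact hz))
  rw [derivative_map] at h1
  rcases h1 with h1 | h1
  · left; exact (Polynomial.map_eq_zero_iff (algebraMap ℝ ℂ).injective).1 h1
  · right; intro z hz; exact h1 z (by rw [← aeval_eq]; exact hz)

lemma RR.iter {p : ℝ[X]} (h : RR p) (k : ℕ) : RR (derivative^[k] p) := by
  induction k with
  | zero => simpa
  | succ k ih => rw [Function.iterate_succ_apply']; exact ih.deriv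

lemma RR.smul {p : ℝ[X]} (h : RR p) (c : ℝ) : RR (C c * p) := by
  by_cases hc : c = 0
  · left; simp [hc]
  rcases h with h | h
  · left; simp [h]
  · right; intro z hz
    apply h z
    simpa [hc] using hz

lemma RR.of_smul {p : ℝ[X]} {c : ℝ} (hc : c ≠ 0) (h : RR (C c * p)) : RR p := by
  have := h.smul c⁻¹
  rwa [← mul_assoc, ← C_mul, inv_mul_cancel₀ hc, C_1, one_mul] at this

lemma RR.neg {p : ℝ[X]} (h : RR p) : RR (-p) := by
  have := h.smul (-1)
  simpa using this

lemma RR.comp {p : ℝ[X]} (h : RR p) {a : ℝ} (ha : a ≠ 0) (b : ℝ) :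
    RR (p.comp (C a * X + C b)) := by
  rcases h with h | h
  · left; simp [h]
  · right; intro z hz
    rw [aeval_comp] at hz
    have := h _ hz
    simpa [ha] using this

lemma RR.of_mul_left {p q : ℝ[X]} (hp : p ≠ 0) (h : RR (p * q)) : RR q := by
  rcases h with h | h
  · left; exact (mul_eq_zero.1 h).resolve_left hp
  · right; intro z hz; apply h z; simp [hz]

/-- the product of the factors `1 + t X` -/
noncomputable def P (s : Multiset ℝ) : ℝ[X] := (s.map (fun t => 1 + C t * X)).prod

@[simp] lemma P_zero : P 0 = 1 := by simp [P]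

lemma P_cons (t : ℝ) (s : Multiset ℝ) : P (t ::ₘ s) = (1 + C t * X) * P s := by simp [P]

lemma P_cons_coeff (t : ℝ) (s : Multiset ℝ) (k : ℕ) :
    (P (t ::ₘ s)).coeff (k+1) = (P s).coeff (k+1) + t * (P s).coeff k := by
  rw [P_cons, add_mul, one_mul, coeff_add, mul_assoc, coeff_C_mul, coeff_X_mul]

lemma P_coeff0 (s : Multiset ℝ) : (P s).coeff 0 = 1 := by
  induction s using Multiset.induction with
  | empty => simp
  | cons t s ih => rw [P_cons, mul_coeff_zero, ih]; simp

lemma P_coeff1 (s : Multiset ℝ) : (P s).coeff 1 = s.sum := by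
  induction s using Multiset.induction with
  | empty => simp [coeff_one]
  | cons t s ih => rw [P_cons_coeff t s 0, P_coeff0]; simp only [zero_add, ih]; simp; ring

lemma P_coeff2 (s : Multiset ℝ) : 2 * (P s).coeff 2 = s.sum ^ 2 - (s.map (· ^ 2)).sum := by
  induction s using Multiset.induction with
  | empty => simp [coeff_one]
  | cons t s ih =>
    rw [P_cons_coeff t s 1, P_coeff1]
    simp only [Multiset.sum_cons, Multiset.map_cons]
    norm_num at ih ⊢
    linarith

lemma P_ne (s : Multiset ℝ) : P s ≠ 0 := by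
  intro h
  have := P_coeff0 s
  rw [h] at this
  simp at this

lemma P_replicate (n : ℕ) : P (Multiset.replicate n 0) = 1 := by
  simp [P]

lemma P_of_sq (s : Multiset ℝ) (h : (s.map (· ^ 2)).sum ≤ 0) : P s = 1 := by
  induction s using Multiset.induction with
  | empty => simp
  | cons t s ih =>
    simp only [Multiset.map_cons, Multiset.sum_cons] at h
    have h1 : 0 ≤ (s.map (· ^ 2)).sum := Multiset.sum_nonneg (by
      intro x hx
      obtain ⟨y, _, rfl⟩ := Multiset.mem_map.1 hx
      positivity)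
    have h2 : t = 0 := by nlinarith
    rw [P_cons, ih (by nlinarith), h2]; simp

lemma sq_sum_nonneg (s : Multiset ℝ) : 0 ≤ (s.map (· ^ 2)).sum := Multiset.sum_nonneg (by
  intro x hx
  obtain ⟨y, _, rfl⟩ := Multiset.mem_map.1 hx
  positivity)

/-- factorisation -/
lemma fac (N : ℕ) : ∀ p : ℝ[X], RR p → p.coeff 0 ≠ 0 → p.natDegree ≤ N →
    ∃ s : Multiset ℝ, Multiset.card s = N ∧ p = C (p.coeff 0) * P s := by
  induction N with
  | zero =>
    intro p _ _ hd
    refine ⟨0, rfl, ?_⟩
    rw [P_zero, mul_one]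
    exact eq_C_of_natDegree_le_zero hd
  | succ N ih =>
    intro p hp h0 hd
    by_cases hd' : p.natDegree ≤ N
    · obtain ⟨s, hs, he⟩ := ih p hp h0 hd'
      refine ⟨0 ::ₘ s, by simp [hs], ?_⟩
      rw [P_cons]; simpa using he
    have hp0 : p ≠ 0 := by rintro rfl; simp at h0
    have hdeg : (p.map (algebraMap ℝ ℂ)).degree ≠ 0 := by
      rw [degree_map, degree_eq_natDegree hp0]
      have : p.natDegree ≠ 0 := by omega
      exact_mod_cast this
    obtain ⟨z, hz⟩ := IsAlgClosed.exists_root _ hdeg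
    have hz' : aeval z p = 0 := by rw [aeval_eq]; exact hz
    have him : z.im = 0 := (hp.resolve_left hp0) z hz'
    have hzr : z = ((z.re : ℝ) : ℂ) := by
      apply Complex.ext <;> simp [him]
    have hr : p.IsRoot z.re := by
      rw [hzr] at hz'
      have : (aeval ((z.re : ℝ) : ℂ) p : ℂ) = ((p.eval z.re : ℝ) : ℂ) := by
        rw [← coe_aeval_eq_eval]
        exact (aeval_algebraMap_apply ℂ z.re p)
      rw [this] at hz'
      exact_mod_cast hz'
    set r := z.re with hrdef
    have hr0 : r ≠ 0 := by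
      intro h
      rw [h] at hr
      apply h0
      rw [coeff_zero_eq_eval_zero]; exact hr
    obtain ⟨q, hq⟩ := dvd_iff_isRoot.2 hr
    have hq0 : q ≠ 0 := by rintro rfl; simp at hq; exact hp0 hq
    have hX : (X - C r : ℝ[X]) ≠ 0 := X_sub_C_ne_zero r
    have hqd : q.natDegree ≤ N := by
      have := natDegree_mul hX hq0
      rw [← hq, natDegree_X_sub_C] at this
      omega
    have hc : p.coeff 0 = -r * q.coeff 0 := by
      rw [hq, mul_coeff_zero]; simp
    have hq00 : q.coeff 0 ≠ 0 := by
      intro h; rw [h] at hc; simp at hc; exact h0 hc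
    obtain ⟨s, hs, he⟩ := ih q (RR.of_mul_left hX (hq ▸ hp)) hq00 hqd
    refine ⟨(-r⁻¹) ::ₘ s, by simp [hs], ?_⟩
    rw [P_cons, hc]
    conv_lhs => rw [hq, he]
    have : (X - C r : ℝ[X]) = C (-r) * (1 + C (-r⁻¹) * X) := by
      rw [mul_add, ← mul_assoc, ← C_mul]
      have : -r * -r⁻¹ = 1 := by field_simp
      rw [this]; simp; ring
    rw [this, C_mul]; ring

lemma RR.turan0 {p : ℝ[X]} (h : RR p) (h1 : p.coeff 1 = 0) : p.coeff 0 * p.coeff 2 ≤ 0 := by
  by_cases h0 : p.coeff 0 = 0
  · simp [h0]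
  obtain ⟨s, _, he⟩ := fac _ p h h0 le_rfl
  have e1 : p.coeff 1 = p.coeff 0 * s.sum := by
    conv_lhs => rw [he]
    rw [coeff_C_mul, P_coeff1]
  have e2 : p.coeff 2 = p.coeff 0 * (P s).coeff 2 := by
    conv_lhs => rw [he]
    rw [coeff_C_mul]
  have hs : s.sum = 0 := by
    rw [h1] at e1
    exact (mul_eq_zero.1 e1.symm).resolve_left h0
  have h2 := P_coeff2 s
  have h3 := sq_sum_nonneg s
  rw [hs] at h2
  rw [e2, ← mul_assoc]
  apply mul_nonpos_of_nonneg_of_nonpos (mul_self_nonneg _)
  nlinarith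

lemma RR.gap0 {p : ℝ[X]} (h : RR p) (h0 : p.coeff 0 ≠ 0) (h1 : p.coeff 1 = 0)
    (h2 : p.coeff 2 = 0) (j : ℕ) (hj : 0 < j) : p.coeff j = 0 := by
  obtain ⟨s, _, he⟩ := fac _ p h h0 le_rfl
  have e1 : p.coeff 1 = p.coeff 0 * s.sum := by
    conv_lhs => rw [he]
    rw [coeff_C_mul, P_coeff1]
  have e2 : p.coeff 2 = p.coeff 0 * (P s).coeff 2 := by
    conv_lhs => rw [he]
    rw [coeff_C_mul]
  have hs : s.sum = 0 := by
    rw [h1] at e1
    exact (mul_eq_zero.1 e1.symm).resolve_left h0
  have hs2 : (P s).coeff 2 = 0 := by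
    rw [h2] at e2
    exact (mul_eq_zero.1 e2.symm).resolve_left h0
  have h3 := P_coeff2 s
  rw [hs, hs2] at h3
  have h4 := P_of_sq s (by linarith)
  rw [he, h4, mul_one, coeff_C, if_neg (by omega)]

lemma RR.turan {p : ℝ[X]} (h : RR p) (i : ℕ) (h1 : p.coeff (i+1) = 0) :
    p.coeff i * p.coeff (i+2) ≤ 0 := by
  have := (h.iter i).turan0 (by rw [coeff_iterate_derivative, add_comm 1 i, h1]; simp)
  rw [coeff_iterate_derivative, coeff_iterate_derivative, zero_add, add_comm 2 i] at this
  simp only [nsmul_eq_mul] at this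
  have a1 : (0:ℝ) < (i.descFactorial i : ℕ) := by
    exact_mod_cast Nat.descFactorial_pos.2 le_rfl
  have a2 : (0:ℝ) < ((i+2).descFactorial i : ℕ) := by
    exact_mod_cast Nat.descFactorial_pos.2 (by omega)
  by_contra hc
  push Not at hc
  have := mul_pos (mul_pos a1 a2) hc
  nlinarith

lemma RR.gap {p : ℝ[X]} (h : RR p) (i : ℕ) (h0 : p.coeff i ≠ 0) (h1 : p.coeff (i+1) = 0)
    (h2 : p.coeff (i+2) = 0) (j : ℕ) (hj : i < j) : p.coeff j = 0 := by
  have a1 : ∀ m, ((m + i).descFactorial i : ℝ) ≠ 0 := by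
    intro m
    have : 0 < (m+i).descFactorial i := Nat.descFactorial_pos.2 (by omega)
    exact_mod_cast this.ne'
  have := (h.iter i).gap0
    (by rw [coeff_iterate_derivative, nsmul_eq_mul]; exact mul_ne_zero (a1 0) (by simpa using h0))
    (by rw [coeff_iterate_derivative, add_comm 1 i, h1]; simp)
    (by rw [coeff_iterate_derivative, add_comm 2 i, h2]; simp) (j - i) (by omega)
  rw [coeff_iterate_derivative, nsmul_eq_mul] at this
  have h3 := (mul_eq_zero.1 this).resolve_left (a1 _)
  rwa [Nat.sub_add_cancel hj.le] at h3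

/-- a sequence whose neighbours never have opposite signs and which has no gaps has one sign -/
lemma one_sign (d : ℕ → ℝ) (h1 : ∀ l, 0 ≤ d l * d (l+1))
    (h2 : ∀ l, d l ≠ 0 → d (l+1) = 0 → ∀ j, l < j → d j = 0) :
    ∃ e : ℝ, (e = 1 ∨ e = -1) ∧ ∀ l, 0 ≤ e * d l := by
  have key : ∀ k l, 0 ≤ d l * d (l + k) := by
    intro k
    induction k with
    | zero => intro l; exact mul_self_nonneg _
    | succ k ih =>
      intro l
      by_cases h0 : d l = 0
      · simp [h0]
      by_cases h0' : d (l+1) = 0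
      · rw [h2 l h0 h0' (l + (k+1)) (by omega)]; simp
      have a := h1 l
      have b := ih (l+1)
      rw [show l + 1 + k = l + (k+1) by omega] at b
      have c : 0 < d (l+1) * d (l+1) := mul_self_pos.2 h0'
      by_contra hc
      push Not at hc
      nlinarith [mul_nonneg a b]
  have key2 : ∀ i j, 0 ≤ d i * d j := by
    intro i j
    rcases le_total i j with h | h
    · obtain ⟨k, rfl⟩ := Nat.exists_eq_add_of_le h; exact key k i
    · obtain ⟨k, rfl⟩ := Nat.exists_eq_add_of_le h; rw [mul_comm]; exact key k j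
  by_cases h : ∃ i, d i < 0
  · obtain ⟨i, hi⟩ := h
    refine ⟨-1, Or.inr rfl, fun l => ?_⟩
    have := key2 i l
    nlinarith
  · push Not at h
    exact ⟨1, Or.inl rfl, fun l => by simpa using h l⟩

lemma sv_le_natDegree (n : ℕ) : ∀ p : ℝ[X], p.natDegree ≤ n → signVariations p ≤ n := by
  induction n with
  | zero =>
    intro p hp
    rw [eq_C_of_natDegree_le_zero hp, ← monomial_zero_left, signVariations_monomial]
  | succ n ih =>
    intro p hp
    have h1 := signVariations_le_eraseLead_succ p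
    have h2 := ih p.eraseLead (by
      have := eraseLead_natDegree_le p
      omega)
    omega

lemma sv_le_of_tail (a : ℕ) (n : ℕ) : ∀ p : ℝ[X], p.natDegree ≤ n →
    (∀ j, a ≤ j → 0 ≤ p.coeff j) → signVariations p ≤ a := by
  induction n with
  | zero =>
    intro p hp _
    exact (sv_le_natDegree 0 p hp).trans (Nat.zero_le _)
  | succ n ih =>
    intro p hp hc
    by_cases h1 : p.natDegree ≤ a
    · exact sv_le_natDegree a p h1
    have hp0 : p ≠ 0 := by rintro rfl; simp at h1
    have he := eraseLead_natDegree_le p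
    by_cases h2 : p.eraseLead.natDegree < a
    · have h3 := signVariations_le_eraseLead_succ p
      have h4 := sv_le_natDegree _ p.eraseLead le_rfl
      omega
    have hc' : ∀ j, a ≤ j → 0 ≤ p.eraseLead.coeff j := by
      intro j hj
      rw [eraseLead_coeff]
      split_ifs
      · exact le_rfl
      · exact hc j hj
    rw [signVariations_eq_eraseLead_add_ite hp0, if_neg]
    · exact ih _ (by omega) hc'
    have l1 : 0 < p.leadingCoeff :=
      lt_of_le_of_ne (hc _ (by omega)) (leadingCoeff_ne_zero.2 hp0).symm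
    have l2 : 0 ≤ p.eraseLead.leadingCoeff := hc' _ (by omega)
    rw [sign_pos l1]
    rcases l2.lt_or_eq with l2 | l2
    · rw [sign_pos l2]; decide
    · rw [← l2, sign_zero]; decide

lemma countP_le_roots (s : Multiset ℝ) :
    s.countP (· < 0) ≤ (P s).roots.countP (0 < ·) := by
  induction s using Multiset.induction with
  | empty => simp
  | cons t s ih =>
    have hne := P_ne (t ::ₘ s)
    rw [P_cons] at hne
    rw [P_cons, roots_mul hne, Multiset.countP_add, Multiset.countP_cons]
    split_ifs with ht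
    · have : 0 < ((1 + C t * X : ℝ[X]).roots.countP (0 < ·)) := by
        rw [Multiset.countP_pos]
        refine ⟨-t⁻¹, ?_, by simpa using ht⟩
        rw [mem_roots (left_ne_zero_of_mul hne)]
        have : t ≠ 0 := ht.ne
        simp [IsRoot, this]
      omega
    · omega

/-- Descartes' rule for a product of real linear factors whose high coefficients have one sign -/
lemma descartes (s : Multiset ℝ) (c : ℝ) (hc : c ≠ 0) (a : ℕ)
    (h : ∀ j, a ≤ j → 0 ≤ (C c * P s).coeff j) : s.countP (· < 0) ≤ a := by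
  have h1 := sv_le_of_tail a _ _ le_rfl h
  rw [signVariations_C_mul _ hc] at h1
  exact (countP_le_roots s).trans ((roots_countP_pos_le_signVariations (P s)).trans h1)

/-- Chebyshev's inequality -/
lemma cheb (s : Multiset ℝ) (μ δ : ℝ) (hδ : 0 ≤ δ) (hμ : μ ≤ -δ) :
    (s.countP (fun t => ¬ t < 0) : ℝ) * δ ^ 2 ≤
      (s.map (· ^ 2)).sum - 2 * μ * s.sum + Multiset.card s * μ ^ 2 := by
  induction s using Multiset.induction with
  | empty => simp
  | cons t s ih =>
    rw [Multiset.countP_cons]
    simp only [Multiset.map_cons, Multiset.sum_cons, Multiset.card_cons]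
    split_ifs with ht
    · push_cast
      nlinarith [sq_nonneg (t - μ)]
    · push_cast
      push Not at ht
      have : δ ^ 2 ≤ (t - μ) ^ 2 := by
        apply pow_le_pow_left₀ hδ; linarith
      nlinarith

end Pool.Agent.H921Z.Herm
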