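import Pool.Agent.H921Z.Herm.Jensen

set_option autoImplicit false

open Polynomial Finset Filter Topology

namespace Pool.Agent.H921Z.Herm

lemma Jen.nz {g : ℕ → ℝ} (h : Jen g) (hg : ∀ n, 0 ≤ g n) (m : ℕ) (h0 : g m ≠ 0)
    (h1 : g (m+1) = 0) (j : ℕ) (hj : m < j) : g j = 0 := by
  have t := h.turan m
  rw [h1] at t
  have a : 0 < g m := lt_of_le_of_ne (hg m) h0.symm
  have h2 : g (m+2) = 0 := by
    have := hg (m+2)
    nlinarith
  exact h.gap m h0 h1 h2 j hj

/-- either the support is finite with a last point, or all later terms are positive -/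
lemma Jen.cases {g : ℕ → ℝ} (h : Jen g) (hg : ∀ n, 0 ≤ g n) (n : ℕ) (hn : 0 < g n) :
    (∃ d, n ≤ d ∧ 0 < g d ∧ ∀ j, d < j → g j = 0) ∨ ∀ m, n ≤ m → 0 < g m := by
  by_cases hc : ∀ m, n ≤ m → 0 < g m
  · exact Or.inr hc
  left
  have hex : ∃ m, n ≤ m ∧ ¬ 0 < g m := by
    push Not at hc
    obtain ⟨m, h1, h2⟩ := hc
    exact ⟨m, h1, not_lt.2 h2⟩
  classical
  let m := Nat.find hex
  have hm : n ≤ m ∧ ¬ 0 < g m := Nat.find_spec hex
  have hne : n ≠ m := by
    intro e; rw [← e] at hm; exact hm.2 hn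
  obtain ⟨d, hd⟩ : ∃ d, m = d + 1 := ⟨m - 1, by omega⟩
  have hd1 : ¬ (n ≤ d ∧ ¬ 0 < g d) := Nat.find_min hex (by omega)
  have hd2 : 0 < g d := by
    by_contra hc'
    exact hd1 ⟨by omega, hc'⟩
  refine ⟨d, by omega, hd2, h.nz hg d hd2.ne' ?_⟩
  rw [← hd]
  exact le_antisymm (not_lt.1 hm.2) (hg m)

lemma Jen.ratio {g : ℕ → ℝ} (h : Jen g) (hg : ∀ n, 0 ≤ g n) (n : ℕ) (hn : 0 < g n) (ρ : ℝ)
    (hρ : g (n+1) ≤ ρ * g n) (j : ℕ) (hj : n ≤ j) : g (j+1) ≤ ρ * g j := by
  have key : ∀ k, g (n+k+1) ≤ ρ * g (n+k) ∧ (0 < g (n+k) ∨ ∀ i, n + k ≤ i → g i = 0) := by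
    intro k
    induction k with
    | zero => exact ⟨hρ, Or.inl hn⟩
    | succ k ih =>
      obtain ⟨a, b⟩ := ih
      rcases b with b | b
      · constructor
        · have t := h.turan (n+k)
          have c := hg (n+k+1)
          have : g (n+k) * g (n+k+2) ≤ g (n+k) * (ρ * g (n+k+1)) := by nlinarith
          exact le_of_mul_le_mul_left this b
        · by_cases h1 : g (n+k+1) = 0
          · right; intro i hi; exact h.nz hg (n+k) b.ne' h1 i (by omega)
          · left; exact lt_of_le_of_ne (hg _) (Ne.symm h1)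
      · constructor
        · rw [b _ (by omega), b _ (by omega)]; simp
        · right; intro i hi; exact b i (by omega)
  obtain ⟨k, rfl⟩ := Nat.exists_eq_add_of_le hj
  exact (key k).1

lemma geom {g : ℕ → ℝ} (hg : ∀ n, 0 ≤ g n) (n : ℕ) (ρ : ℝ) (hρ : 0 < ρ)
    (h : ∀ j, n ≤ j → g (j+1) ≤ ρ * g j) : ∃ C, 0 ≤ C ∧ ∀ j, g j ≤ C * ρ ^ j := by
  refine ⟨∑ i ∈ range (n+1), g i / ρ ^ i,
    Finset.sum_nonneg (fun i _ => div_nonneg (hg i) (by positivity)), ?_⟩
  have a : ∀ j, j ≤ n → g j ≤ (∑ i ∈ range (n+1), g i / ρ ^ i) * ρ ^ j := by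
    intro j hj
    have := Finset.single_le_sum (f := fun i => g i / ρ ^ i)
      (fun i _ => div_nonneg (hg i) (by positivity)) (Finset.mem_range.2 (Nat.lt_succ_of_le hj))
    rwa [div_le_iff₀ (by positivity)] at this
  intro j
  induction j with
  | zero => exact a 0 (Nat.zero_le _)
  | succ j ih =>
    by_cases hj : j + 1 ≤ n
    · exact a _ hj
    · calc g (j+1) ≤ ρ * g j := h j (by omega)
        _ ≤ ρ * ((∑ i ∈ range (n+1), g i / ρ ^ i) * ρ ^ j) := by gcongr
        _ = _ := by ring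

/-- a bounded antitone sequence is eventually almost constant -/
lemma anti_cauchy (r : ℕ → ℝ) (n : ℕ) (h0 : ∀ m, n ≤ m → 0 ≤ r m)
    (h1 : ∀ m, n ≤ m → r (m+1) ≤ r m) (ε : ℝ) (hε : 0 < ε) :
    ∃ Q, n ≤ Q ∧ ∀ i j, Q ≤ i → Q ≤ j → r i - r j < ε := by
  have ha : Antitone (fun k => r (k + n)) := by
    apply antitone_nat_of_succ_le
    intro k
    have := h1 (k+n) (by omega)
    rwa [show k + n + 1 = k + 1 + n by omega] at this
  have hb : BddBelow (Set.range (fun k => r (k + n))) := ⟨0, by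
    rintro _ ⟨k, rfl⟩; exact h0 _ (by omega)⟩
  have hc := (tendsto_atTop_ciInf ha hb).cauchySeq
  rw [Metric.cauchySeq_iff] at hc
  obtain ⟨N, hN⟩ := hc ε hε
  refine ⟨N + n, by omega, fun i j hi hj => ?_⟩
  have := hN (i - n) (by omega) (j - n) (by omega)
  rw [Real.dist_eq, show i - n + n = i by omega, show j - n + n = j by omega] at this
  exact lt_of_le_of_lt (le_abs_self _) this

lemma cubic {g : ℕ → ℝ} (h : Jen g) (h0 : g 0 ≠ 0) :
    ∃ a b c : ℝ, g 0 * (a + b + c) = 3 * g 1 ∧ g 0 * (a * b + a * c + b * c) = 3 * g 2 ∧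
      g 0 * (a * b * c) = g 3 := by
  obtain ⟨s, hs, he, e1, e2⟩ := h.fac h0 3
  obtain ⟨a, b, c, rfl⟩ := Multiset.card_eq_three.1 hs
  refine ⟨a, b, c, ?_, ?_, ?_⟩
  · simp at e1; linarith
  · simp at e2; linarith
  · have := J_coeff 3 g 3
    rw [he, coeff_C_mul] at this
    have e3 : (P {a, b, c}).coeff 3 = a * b * c := by
      have a1 := P_cons_coeff a (b ::ₘ c ::ₘ 0) 2
      have a2 := P_cons_coeff b (c ::ₘ 0) 2
      have a3 := P_cons_coeff b (c ::ₘ 0) 1
      have a4 := P_cons_coeff c 0 2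
      have a5 := P_cons_coeff c 0 1
      have a6 := P_cons_coeff c 0 0
      simp only [P_zero, coeff_one] at a4 a5 a6
      norm_num at a1 a2 a3 a4 a5 a6
      show (P (a ::ₘ {b, c})).coeff 3 = _
      erw [a1, a2, a3, a4, a5, a6]; ring
    rw [e3] at this
    simpa using this

lemma cubic_bound (a b c : ℝ) : (a * b * c) ^ 2 ≤ (a ^ 2 + b ^ 2 + c ^ 2) ^ 3 := by
  have ha : a ^ 2 ≤ a ^ 2 + b ^ 2 + c ^ 2 := by nlinarith
  have hb : b ^ 2 ≤ a ^ 2 + b ^ 2 + c ^ 2 := by nlinarith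
  have hc : c ^ 2 ≤ a ^ 2 + b ^ 2 + c ^ 2 := by nlinarith
  calc (a * b * c) ^ 2 = a ^ 2 * b ^ 2 * c ^ 2 := by ring
    _ ≤ (a ^ 2 + b ^ 2 + c ^ 2) * (a ^ 2 + b ^ 2 + c ^ 2) * (a ^ 2 + b ^ 2 + c ^ 2) := by gcongr
    _ = _ := by ring

lemma real_aux (a b c ε δ q r0 r1 : ℝ) (hε0 : 0 < ε) (hε1 : ε < 1) (hε2 : ε < δ ^ 2 / 3375)
    (hδ0 : 0 < δ) (hδ : δ = (1 - q) ^ 2 / 2) (hr : r0 - r1 < δ) (hr0q : r0 ≤ q) (hr00 : 0 < r0)
    (hq1 : q < 1) (f1 : a + b + c = 3 * ε) (f2 : a * b + a * c + b * c = 3 * ε * (r0 - 1))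
    (f3 : a * b * c = ε * (r0 * r1 - 2 * r0 + 1)) : False := by
  have f4 : a ^ 2 + b ^ 2 + c ^ 2 ≤ 15 * ε := by
    have : a ^ 2 + b ^ 2 + c ^ 2 = (a + b + c) ^ 2 - 2 * (a * b + a * c + b * c) := by ring
    rw [this, f1, f2]
    nlinarith [mul_pos hε0 hr00, mul_pos hε0 (sub_pos.2 hε1)]
  have f5 : δ ≤ r0 * r1 - 2 * r0 + 1 := by
    have u1 : (1 - q) ^ 2 ≤ (1 - r0) ^ 2 := by
      apply pow_le_pow_left₀ <;> linarith
    have u2 : r0 * (r0 - r1) ≤ δ := by
      calc r0 * (r0 - r1) ≤ r0 * δ := by gcongr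
        _ ≤ 1 * δ := by gcongr; linarith
        _ = δ := one_mul _
    nlinarith
  have f6 := cubic_bound a b c
  have f7 : (a ^ 2 + b ^ 2 + c ^ 2) ^ 3 ≤ (15 * ε) ^ 3 := by gcongr
  have f8 : (ε * δ) ^ 2 ≤ (a * b * c) ^ 2 := by rw [f3]; gcongr
  have f9 : ε ^ 2 * δ ^ 2 ≤ ε ^ 2 * (3375 * ε) := by
    calc ε ^ 2 * δ ^ 2 = (ε * δ) ^ 2 := by ring
      _ ≤ (15 * ε) ^ 3 := by linarith
      _ = _ := by ring
  have f10 := le_of_mul_le_mul_left f9 (by positivity)
  linarith

/-- the differences of an increasing sequence of the class are increasing -/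
lemma Jen.diff_mono {g : ℕ → ℝ} (h : Jen g) (hg : ∀ n, 0 ≤ g n) (hm : ∀ n, g n ≤ g (n+1)) (n : ℕ) :
    D 1 g n ≤ D 1 g (n+1) := by
  by_contra hc
  push Not at hc
  set θ := D 1 g with hθ
  have hθ1 : ∀ m, θ m = g (m+1) - g m := fun m => D_one g m
  have hθ0 : ∀ m, 0 ≤ θ m := fun m => by rw [hθ1]; linarith [hm m]
  have hJ : Jen θ := h.diff
  have hn : 0 < θ n := lt_of_le_of_lt (hθ0 _) hc
  rcases hJ.cases hθ0 n hn with ⟨d, _, hd, hz⟩ | hpos
  · -- finite support
    have e1 : g (d+2) = g (d+1) := by have := hz (d+1) (by omega); rw [hθ1] at this; linarith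
    have e2 : g (d+3) = g (d+1) := by
      have := hz (d+2) (by omega); rw [hθ1] at this; linarith
    have e0 : g d < g (d+1) := by rw [hθ1] at hd; linarith
    by_cases h0 : g d = 0
    · have hr := (h.shift d) 3
      have : J 3 (fun j => g (j + d)) = (C (g (d+1)) * X) * (X ^ 2 + C 3 * X + C 3) := by
        unfold J
        simp only [Finset.sum_range_succ, Finset.range_zero, Finset.sum_empty, zero_add, h0,
          add_comm 1 d, add_comm 2 d, add_comm 3 d, e1, e2]
        simp [Nat.choose]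
        have c3 : (C 3 : ℝ[X]) = 3 := rfl
        rw [c3]; ring
      rw [this] at hr
      have hr2 := RR.of_mul_left (mul_ne_zero (C_ne_zero.2 (by linarith)) X_ne_zero) hr
      obtain ⟨s, hs, he⟩ := Herm.fac 2 _ hr2 (by simp) (by compute_degree)
      obtain ⟨a, b, rfl⟩ := Multiset.card_eq_two.1 hs
      have c1 := congrArg (fun p => coeff p 1) he
      have c2 := congrArg (fun p => 2 * coeff p 2) he
      simp only [coeff_C_mul] at c1 c2
      rw [P_coeff1] at c1
      rw [mul_left_comm, P_coeff2] at c2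
      simp [coeff_X, coeff_C, coeff_X_pow] at c1 c2
      nlinarith [sq_nonneg (a - b)]
    · obtain ⟨a, b, c, k1, k2, k3⟩ := cubic ((h.shift d).btm 0) (by simpa [D_zero] using h0)
      simp only [D_succ, D_zero, zero_add, add_comm 1 d, add_comm 2 d, add_comm 3 d] at k1 k2 k3
      simp only [e1, e2] at k1 k2 k3
      have hgd : 0 < g d := lt_of_le_of_ne (hg d) (Ne.symm h0)
      set G := g d
      set t := g (d+1) - G with ht
      have ht0 : 0 < t := by linarith
      have k2' : G * (a * b + a * c + b * c) = -3 * t := by linarith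
      have k3' : G * (a * b * c) = t := by linarith
      -- reciprocal roots
      have s1 : a * b + a * c + b * c = -3 * (a * b * c) := by
        apply mul_left_cancel₀ hgd.ne'; linarith
      have s2 : a + b + c = 3 * (a * b * c) := by
        apply mul_left_cancel₀ hgd.ne'; linarith
      have hp : 0 < a * b * c := by
        by_contra hh
        push Not at hh
        nlinarith
      have z : (a * b - a * c) ^ 2 + (a * b - b * c) ^ 2 + (a * c - b * c) ^ 2 = 0 := by
        have : (a * b - a * c) ^ 2 + (a * b - b * c) ^ 2 + (a * c - b * c) ^ 2 =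
            2 * (a * b + a * c + b * c) ^ 2 - 6 * (a * b * c) * (a + b + c) := by ring
        rw [this, s1, s2]; ring
      have z1 : a * b = a * c := by nlinarith [sq_nonneg (a * b - a * c), sq_nonneg (a * b - b * c), sq_nonneg (a * c - b * c)]
      have z2 : a * b = b * c := by nlinarith [sq_nonneg (a * b - a * c), sq_nonneg (a * b - b * c), sq_nonneg (a * c - b * c)]
      have w : a * b < 0 := by linarith
      have w2 : (a * b) * (a * c) * (b * c) = (a * b * c) ^ 2 := by ring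
      rw [← z1, ← z2] at w2
      nlinarith [mul_pos_of_neg_of_neg w w]
  · -- infinite support
    set q := θ (n+1) / θ n with hq
    have hq1 : q < 1 := by rw [hq, div_lt_one hn]; exact hc
    have hq0 : 0 < q := div_pos (hpos _ (by omega)) hn
    have hrat := hJ.ratio hθ0 n hn q (by rw [hq]; field_simp; exact le_rfl)
    obtain ⟨C0, hC0, hC⟩ := geom hθ0 n q hq0 hrat
    have hmono : Monotone g := monotone_nat_of_le_succ hm
    have hG : 0 < g (n+1) := by have := hθ1 n; linarith [hg n]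
    set δ := (1 - q) ^ 2 / 2 with hδ
    have hδ0 : 0 < δ := by have : 0 < 1 - q := by linarith
                           positivity
    obtain ⟨Q, hQ, hQ2⟩ := anti_cauchy (fun m => θ (m+1) / θ m) n
      (fun m hm' => div_nonneg (hθ0 _) (hθ0 _))
      (fun m hm' => by
        have t := hJ.turan m
        have p1 := hpos m hm'
        have p2 := hpos (m+1) (by omega)
        rw [div_le_div_iff₀ p2 p1]
        nlinarith) δ hδ0
    have hlim : Tendsto (fun m : ℕ => C0 * q ^ m) atTop (𝓝 (C0 * 0)) :=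
      (tendsto_pow_atTop_nhds_zero_of_lt_one hq0.le hq1).const_mul C0
    rw [mul_zero] at hlim
    have hη : 0 < g (n+1) * min 1 (δ ^ 2 / 3375) := by positivity
    obtain ⟨m, hm1, hm2⟩ := ((hlim.eventually (gt_mem_nhds hη)).and
      (eventually_ge_atTop (Q + 1))).exists
    have hgm : g (n+1) ≤ g m := hmono (by omega)
    have hgm0 : 0 < g m := by linarith
    have p0 := hpos m (by omega)
    have p1 := hpos (m+1) (by omega)
    obtain ⟨a, b, c, k1, k2, k3⟩ := cubic (h.btm m) (by simpa [D_zero] using hgm0.ne')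
    have d1 : D 1 g m = θ m := rfl
    have d2 : D 2 g m = θ (m+1) - θ m := D_succ 1 g m
    have d3 : D 3 g m = θ (m+2) - 2 * θ (m+1) + θ m := by
      rw [D_succ 2 g m, D_succ 1 g (m+1), d2]; ring
    simp only [D_zero, d1, d2, d3] at k1 k2 k3
    set ε := θ m / g m with hε
    have hε0 : 0 < ε := div_pos p0 hgm0
    have hεs : ε < min 1 (δ ^ 2 / 3375) := by
      rw [hε, div_lt_iff₀ hgm0]
      have : 0 < min 1 (δ ^ 2 / 3375) := by positivity
      calc θ m ≤ C0 * q ^ m := hC m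
        _ < g (n+1) * min 1 (δ ^ 2 / 3375) := hm1
        _ ≤ _ := by rw [mul_comm]; gcongr
    have hε1 : ε < 1 := lt_of_lt_of_le hεs (min_le_left _ _)
    have hε2 : ε < δ ^ 2 / 3375 := lt_of_lt_of_le hεs (min_le_right _ _)
    set r0 := θ (m+1) / θ m with hr0
    set r1 := θ (m+2) / θ (m+1) with hr1
    have hr : r0 - r1 < δ := hQ2 m (m+1) (by omega) (by omega)
    have hr0q : r0 ≤ q := by rw [hr0, div_le_iff₀ p0]; exact hrat m (by omega)
    have hr00 : 0 < r0 := div_pos p1 p0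
    have f1 : a + b + c = 3 * ε := by
      apply mul_left_cancel₀ hgm0.ne'; rw [k1, hε]; field_simp
    have f2 : a * b + a * c + b * c = 3 * ε * (r0 - 1) := by
      apply mul_left_cancel₀ hgm0.ne'; rw [k2, hε, hr0]; field_simp
    have f3 : a * b * c = ε * (r0 * r1 - 2 * r0 + 1) := by
      apply mul_left_cancel₀ hgm0.ne'; rw [k3, hε, hr0, hr1]; field_simp
    exact real_aux a b c ε δ q r0 r1 hε0 hε1 hε2 hδ0 hδ hr hr0q hr00 hq1 f1 f2 f3

/-- all differences of an increasing sequence of the class are nonnegative -/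
lemma Jen.all_diff (j : ℕ) : ∀ {g : ℕ → ℝ}, Jen g → (∀ n, 0 ≤ g n) → (∀ n, g n ≤ g (n+1)) →
    ∀ n, 0 ≤ D j g n := by
  induction j with
  | zero => intro g _ hg _; exact hg
  | succ j ih =>
    intro g h hg hm n
    rw [D_succ']
    exact ih h.diff (fun m => by rw [D_one]; linarith [hm m]) (h.diff_mono hg hm) n

end Pool.Agent.H921Z.Herm
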