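import Pool.Agent.H921Z.Herm.Jensen

set_option autoImplicit false

open Polynomial Finset Filter Topology

namespace Pool.Agent.H921Z.Herm

/-- zero, or without zeros in the upper half plane -/
def Stab (f : ℂ[X]) : Prop := f = 0 ∨ ∀ z : ℂ, f.eval z = 0 → z.im ≤ 0

lemma Stab.deriv {f : ℂ[X]} (h : Stab f) : Stab (derivative f) := gl convex_low f h

lemma Stab.smul {f : ℂ[X]} (h : Stab f) (c : ℂ) : Stab (c • f) := by
  by_cases hc : c = 0
  · left; simp [hc]
  rcases h with h | h
  · left; simp [h]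
  · right; intro z hz; apply h z; simpa [hc] using hz

lemma stab_ind (Pr : ℂ[X] → Prop) (h0 : ∀ c : ℂ, c ≠ 0 → Pr (C c))
    (h1 : ∀ (a : ℂ) (q : ℂ[X]), a.im ≤ 0 → (∀ z : ℂ, q.eval z = 0 → z.im ≤ 0) → Pr q →
      Pr ((X - C a) * q)) (n : ℕ) :
    ∀ f : ℂ[X], f.natDegree ≤ n → (∀ z : ℂ, f.eval z = 0 → z.im ≤ 0) → Pr f := by
  induction n with
  | zero =>
    intro f hd hf
    rw [eq_C_of_natDegree_le_zero hd]
    apply h0
    intro hc
    have := hf Complex.I (by rw [eq_C_of_natDegree_le_zero hd, hc]; simp)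
    simp at this; linarith
  | succ n ih =>
    intro f hd hf
    by_cases hd' : f.natDegree ≤ n
    · exact ih f hd' hf
    have hf0 : f ≠ 0 := by rintro rfl; simp at hd'
    have hdeg : f.degree ≠ 0 := by
      rw [degree_eq_natDegree hf0]
      have : f.natDegree ≠ 0 := by omega
      exact_mod_cast this
    obtain ⟨a, ha⟩ := IsAlgClosed.exists_root _ hdeg
    obtain ⟨q, hq⟩ := dvd_iff_isRoot.2 ha
    have hq0 : q ≠ 0 := by rintro rfl; simp at hq; exact hf0 hq
    have hqd : q.natDegree ≤ n := by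
      have := natDegree_mul (X_sub_C_ne_zero a) hq0
      rw [← hq, natDegree_X_sub_C] at this
      omega
    have hq' : ∀ z : ℂ, q.eval z = 0 → z.im ≤ 0 := by
      intro z hz; apply hf z; rw [hq]; simp [hz]
    rw [hq]
    exact h1 a q (hf a ha) hq' (ih q hqd hq')

lemma logder {f : ℂ[X]} (hf : ∀ z : ℂ, f.eval z = 0 → z.im ≤ 0) (z : ℂ) (hz : 0 < z.im) :
    ((derivative f).eval z / f.eval z).im ≤ 0 := by
  refine stab_ind (fun f => ((derivative f).eval z / f.eval z).im ≤ 0) ?_ ?_ _ f le_rfl hf
  · intro c _; simp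
  · intro a q ha hq ih
    have h1 : q.eval z ≠ 0 := fun h => by linarith [hq z h]
    have h2 : z - a ≠ 0 := by
      intro h
      have := congrArg Complex.im h
      simp at this; linarith
    have : (derivative ((X - C a) * q)).eval z / ((X - C a) * q).eval z =
        (z - a)⁻¹ + (derivative q).eval z / q.eval z := by
      simp only [derivative_mul, derivative_sub, derivative_X, derivative_C, sub_zero, one_mul,
        eval_add, eval_mul, eval_sub, eval_X, eval_C]
      field_simp
    rw [this, Complex.add_im, Complex.inv_im]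
    have h3 : 0 < Complex.normSq (z - a) := Complex.normSq_pos.2 h2
    have h4 : -(z - a).im / Complex.normSq (z - a) ≤ 0 := by
      apply div_nonpos_of_nonpos_of_nonneg _ h3.le
      simp; linarith
    linarith

lemma hur_bound {f : ℂ[X]} (hf : ∀ z : ℂ, f.eval z = 0 → z.im ≤ 0) (z w : ℂ) (hz : 0 < z.im) :
    ‖f.eval w‖ ≤ (1 + ‖w - z‖ / z.im) ^ f.natDegree * ‖f.eval z‖ := by
  refine stab_ind (fun f => ‖f.eval w‖ ≤ (1 + ‖w - z‖ / z.im) ^ f.natDegree * ‖f.eval z‖)
    ?_ ?_ _ f le_rfl hf
  · intro c _; simp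
  · intro a q ha hq ih
    have hq0 : q ≠ 0 := by
      rintro rfl
      have := hq Complex.I (by simp)
      simp at this; linarith
    rw [natDegree_mul (X_sub_C_ne_zero a) hq0, natDegree_X_sub_C, pow_add, pow_one]
    simp only [eval_mul, eval_sub, eval_X, eval_C, norm_mul]
    have h1 : z.im ≤ ‖z - a‖ := by
      have := Complex.im_le_norm (z - a)
      simp at this; linarith
    have h2 : ‖w - a‖ ≤ (1 + ‖w - z‖ / z.im) * ‖z - a‖ := by
      have t : ‖w - a‖ ≤ ‖z - a‖ + ‖w - z‖ := by
        calc ‖w - a‖ = ‖(z - a) + (w - z)‖ := by ring_nf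
          _ ≤ _ := norm_add_le _ _
      have t2 : ‖w - z‖ ≤ ‖w - z‖ / z.im * ‖z - a‖ := by
        calc ‖w - z‖ = ‖w - z‖ / z.im * z.im := by field_simp
          _ ≤ _ := by gcongr
      linarith
    calc ‖w - a‖ * ‖q.eval w‖ ≤ ((1 + ‖w - z‖ / z.im) * ‖z - a‖) *
          ((1 + ‖w - z‖ / z.im) ^ q.natDegree * ‖q.eval z‖) := by gcongr
      _ = _ := by ring

/-- Hurwitz' theorem for polynomials of bounded degree -/
lemma hurwitz (u : ℕ → ℂ[X]) (f : ℂ[X]) (n : ℕ) (hd : ∀ M, (u M).natDegree ≤ n)
    (hs : ∀ M, Stab (u M)) (hl : ∀ z, Tendsto (fun M => (u M).eval z) atTop (𝓝 (f.eval z))) :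
    Stab f := by
  by_contra hc
  unfold Stab at hc
  push Not at hc
  obtain ⟨h0, z, hz, hz'⟩ := hc
  apply h0
  apply Polynomial.funext
  intro w
  have hb : ∀ M, ‖(u M).eval w‖ ≤ (1 + ‖w - z‖ / z.im) ^ n * ‖(u M).eval z‖ := by
    intro M
    rcases hs M with h | h
    · simp [h]
    · refine (hur_bound h z w hz').trans ?_
      gcongr
      · have : 0 ≤ ‖w - z‖ / z.im := by positivity
        linarith
      · exact hd M
  have := le_of_tendsto_of_tendsto' (hl w).norm
    (((hl z).norm).const_mul ((1 + ‖w - z‖ / z.im) ^ n)) hb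
  rw [hz, norm_zero, mul_zero] at this
  simpa using this

lemma Stab.add_deriv {f : ℂ[X]} (h : Stab f) (w : ℂ) (hw : 0 < w.im) :
    Stab (f + w • derivative f) := by
  rcases h with h | h
  · left; simp [h]
  right
  intro z hz
  by_contra hc
  push Not at hc
  have h1 : f.eval z ≠ 0 := fun h' => by linarith [h z h']
  have h2 := logder h z hc
  have hw0 : w ≠ 0 := by rintro rfl; simp at hw
  have h3 : (derivative f).eval z / f.eval z = -w⁻¹ := by
    simp only [eval_add, eval_smul, smul_eq_mul] at hz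
    field_simp
    linear_combination hz
  rw [h3, Complex.neg_im, Complex.inv_im] at h2
  have h4 : 0 < w.im / Complex.normSq w := div_pos hw (Complex.normSq_pos.2 hw0)
  rw [neg_div, neg_neg] at h2
  linarith

/-- the creation operator `x - d/dx` -/
noncomputable def A (R : Type) [CommRing R] : R[X] →ₗ[R] R[X] := LinearMap.mulLeft R X - derivative

lemma A_apply {R : Type} [CommRing R] (f : R[X]) : A R f = X * f - derivative f := rfl

lemma A_eval {G : ℂ[X]} (h : ∀ z : ℂ, G.eval z = 0 → z.im ≤ 0) (z : ℂ) (hz : 0 < z.im) :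
    ∃ w : ℂ, 0 < w.im ∧ (A ℂ G).eval z = w * G.eval z := by
  have h1 : G.eval z ≠ 0 := fun h' => by linarith [h z h']
  refine ⟨z - (derivative G).eval z / G.eval z, ?_, ?_⟩
  · have := logder h z hz
    rw [Complex.sub_im]; linarith
  · rw [A_apply]; simp only [eval_sub, eval_mul, eval_X]; field_simp

lemma Stab.A {G : ℂ[X]} (h : Stab G) : Stab (A ℂ G) := by
  rcases h with h | h
  · left; simp [h]
  right
  intro z hz
  by_contra hc
  push Not at hc
  obtain ⟨w, hw, e⟩ := A_eval h z hc
  have h1 : G.eval z ≠ 0 := fun h' => by linarith [h z h']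
  have hw0 : w ≠ 0 := by rintro rfl; simp at hw
  rw [hz] at e
  exact mul_ne_zero hw0 h1 e.symm

/-- Hermite polynomials over a ring -/
noncomputable def He (R : Type) [CommRing R] (n : ℕ) : R[X] := (hermite n).map (Int.castRingHom R)

lemma He_succ (R : Type) [CommRing R] (n : ℕ) : He R (n+1) = A R (He R n) := by
  simp [He, A_apply, hermite_succ, derivative_map]

lemma He_zero (R : Type) [CommRing R] : He R 0 = 1 := by simp [He]

lemma He_deriv_succ (R : Type) [CommRing R] (n : ℕ) :
    derivative (He R (n+1)) = ((n:R) + 1) • He R n := by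
  induction n with
  | zero => simp [He_succ, He_zero, A_apply]
  | succ n ih =>
    rw [He_succ R (n+1), A_apply, derivative_sub, derivative_mul, derivative_X, ih, He_succ R n,
      A_apply]
    simp only [smul_eq_C_mul, derivative_mul, map_add, map_natCast, map_one,
      Nat.cast_add, Nat.cast_one, derivative_natCast, derivative_one]
    ring

lemma He_deriv (R : Type) [CommRing R] (n : ℕ) :
    derivative (He R n) = (n:R) • He R (n-1) := by
  cases n with
  | zero => simp [He_zero]
  | succ n => rw [He_deriv_succ]; simp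

lemma He_monic (R : Type) [CommRing R] (n : ℕ) : (He R n).Monic := (hermite_monic n).map _

lemma He_degree (R : Type) [CommRing R] [Nontrivial R] (n : ℕ) : (He R n).degree = n := by
  rw [He, (hermite_monic n).degree_map, degree_hermite]

noncomputable def HeS (R : Type) [Field R] : Polynomial.Sequence R := ⟨He R, He_degree R⟩

noncomputable def HeB (R : Type) [Field R] : Module.Basis ℕ R R[X] :=
  (HeS R).basis (fun i => by
    have : ((HeS R) i).leadingCoeff = 1 := He_monic R i
    rw [this]; exact isUnit_one)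

lemma HeB_apply (R : Type) [Field R] (i : ℕ) : HeB R i = He R i :=
  Polynomial.Sequence.basis_eq_self _ _ i

/-- the Hermite diagonal operator on complex polynomials -/
noncomputable def TC (g : ℕ → ℝ) : ℂ[X] →ₗ[ℂ] ℂ[X] :=
  (HeB ℂ).constr ℂ (fun n => (g n : ℂ) • He ℂ n)

lemma TC_He (g : ℕ → ℝ) (n : ℕ) : TC g (He ℂ n) = (g n : ℂ) • He ℂ n := by
  rw [← HeB_apply, TC, Module.Basis.constr_basis, HeB_apply]

/-- Hermite multiplier sequences -/
def HM (g : ℕ → ℝ) : Prop := ∀ f, Stab f → Stab (TC g f)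

lemma TC_inj {g : ℕ → ℝ} (hg : ∀ n, g n ≠ 0) {f : ℂ[X]} (h : TC g f = 0) : f = 0 := by
  have : (TC (fun n => (g n)⁻¹)).comp (TC g) = LinearMap.id := by
    apply (HeB ℂ).ext
    intro i
    rw [HeB_apply, LinearMap.comp_apply, TC_He, map_smul, TC_He, smul_smul]
    have : (g i : ℂ) ≠ 0 := by exact_mod_cast hg i
    simp [this]
  have h2 := LinearMap.congr_fun this f
  rw [LinearMap.comp_apply, h, map_zero] at h2
  exact h2.symm

lemma TC_N (g : ℕ → ℝ) (f : ℂ[X]) :
    TC (fun n => n * g (n-1)) f = A ℂ (TC g (derivative f)) := by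
  have : TC (fun n => n * g (n-1)) = (A ℂ).comp ((TC g).comp derivative) := by
    apply (HeB ℂ).ext
    intro i
    rw [HeB_apply, TC_He]
    simp only [LinearMap.comp_apply]
    rw [He_deriv, map_smul, TC_He, map_smul, map_smul, smul_smul]
    cases i with
    | zero => simp
    | succ i => rw [Nat.add_sub_cancel, ← He_succ]; simp
  rw [this]; rfl

lemma TC_lin (g h : ℕ → ℝ) (t : ℝ) (f : ℂ[X]) :
    TC (fun n => g n + t * h n) f = TC g f + (t:ℂ) • TC h f := by
  have : TC (fun n => g n + t * h n) = TC g + (t:ℂ) • TC h := by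
    apply (HeB ℂ).ext
    intro i
    rw [HeB_apply, LinearMap.add_apply, LinearMap.smul_apply, TC_He, TC_He, TC_He, smul_smul,
      ← add_smul]
    simp
  rw [this]; rfl

lemma TC_smul (g : ℕ → ℝ) (t : ℝ) (f : ℂ[X]) :
    TC (fun n => t * g n) f = (t:ℂ) • TC g f := by
  have : TC (fun n => t * g n) = (t:ℂ) • TC g := by
    apply (HeB ℂ).ext
    intro i
    rw [HeB_apply, LinearMap.smul_apply, TC_He, TC_He, smul_smul]
    simp
  rw [this]; rfl

lemma HM.one : HM (fun _ => 1) := by
  intro f hf
  have : TC (fun _ => 1) = LinearMap.id := by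
    apply (HeB ℂ).ext
    intro i
    rw [HeB_apply, TC_He]; simp
  rw [this]; exact hf

lemma HM.smul {g : ℕ → ℝ} (h : HM g) (t : ℝ) : HM (fun n => t * g n) := by
  intro f hf
  rw [TC_smul]; exact (h f hf).smul _

lemma HM.N {g : ℕ → ℝ} (h : HM g) : HM (fun n => n * g (n-1)) := by
  intro f hf
  rw [TC_N]; exact (h _ hf.deriv).A

lemma HM.step {g : ℕ → ℝ} (h : HM g) (hg : ∀ n, g n ≠ 0) (t : ℝ) (ht : 0 ≤ t) :
    HM (fun n => g n + t * (n * g (n-1))) := by
  intro f hf
  rw [TC_lin, TC_N]
  rcases ht.eq_or_lt with rfl | ht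
  · simpa using h f hf
  rcases h _ hf.deriv with hG | hG
  · rw [hG]; simpa using h f hf
  right
  intro z hz
  by_contra hc
  push Not at hc
  obtain ⟨w, hw, e⟩ := A_eval hG z hc
  have hw' : 0 < ((t:ℂ) * w).im := by simpa using mul_pos ht hw
  have h2 := h _ (hf.add_deriv _ hw')
  rcases h2 with h2 | h2
  · have h3 := TC_inj hg h2
    have hf0 : f = 0 := by
      by_contra hf0
      have d1 : ((t * w : ℂ) • derivative f).degree < f.degree :=
        lt_of_le_of_lt (degree_smul_le _ _) (degree_derivative_lt hf0)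
      have d2 := degree_add_eq_left_of_degree_lt d1
      rw [h3, degree_zero] at d2
      exact hf0 (degree_eq_bot.1 d2.symm)
    have := hG Complex.I (by simp [hf0])
    simp at this; linarith
  · have := h2 z (by
      rw [map_add, map_smul]
      simp only [eval_add, eval_smul, smul_eq_mul] at hz ⊢
      rw [e] at hz
      linear_combination hz)
    linarith

lemma TC_eq_sum (g : ℕ → ℝ) (f : ℂ[X]) :
    TC g f = ∑ i ∈ ((HeB ℂ).repr f).support, ((HeB ℂ).repr f i * g i) • He ℂ i := by
  rw [TC, Module.Basis.constr_apply, Finsupp.sum]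
  apply Finset.sum_congr rfl
  intro i _
  rw [smul_smul]

lemma HM.lim (u : ℕ → ℕ → ℝ) (g : ℕ → ℝ) (hu : ∀ M, HM (u M))
    (hl : ∀ n, Tendsto (fun M => u M n) atTop (𝓝 (g n))) : HM g := by
  intro f hf
  refine hurwitz (fun M => TC (u M) f) _ (((HeB ℂ).repr f).support.sup id) ?_
    (fun M => hu M f hf) ?_
  · intro M
    rw [TC_eq_sum]
    apply natDegree_sum_le_of_forall_le
    intro i hi
    refine (natDegree_smul_le _ _).trans ?_
    rw [natDegree_eq_of_degree_eq_some (He_degree ℂ i)]
    exact Finset.le_sup (f := id) hi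
  · intro z
    simp only [TC_eq_sum, eval_finsetSum, eval_smul, smul_eq_mul]
    apply tendsto_finsetSum
    intro i _
    apply Tendsto.mul_const
    apply Tendsto.const_mul
    exact (Complex.continuous_ofReal.tendsto _).comp (hl i)

/-- the `n`-th derivative at `0` of `exp x * p x` -/
noncomputable def lam (p : ℝ[X]) (n : ℕ) : ℝ :=
  ∑ k ∈ range (n+1), p.coeff k * (n.descFactorial k : ℝ)

lemma lam_X (p : ℝ[X]) (n : ℕ) : lam (X * p) n = n * lam p (n-1) := by
  cases n with
  | zero => simp [lam]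
  | succ n =>
    unfold lam
    rw [Finset.sum_range_succ', Nat.add_sub_cancel, Finset.mul_sum]
    simp only [coeff_X_mul, mul_coeff_zero, coeff_X_zero, zero_mul, add_zero,
      Nat.succ_descFactorial_succ]
    apply Finset.sum_congr rfl
    intro k _
    push_cast; ring

lemma lam_step (p : ℝ[X]) (t : ℝ) (n : ℕ) :
    lam ((1 + C t * X) * p) n = lam p n + t * (n * lam p (n-1)) := by
  rw [← lam_X]
  unfold lam
  rw [Finset.mul_sum, ← Finset.sum_add_distrib]
  apply Finset.sum_congr rfl
  intro k _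
  rw [add_mul, one_mul, coeff_add, mul_assoc, coeff_C_mul]; ring

lemma lam_C (p : ℝ[X]) (t : ℝ) (n : ℕ) : lam (C t * p) n = t * lam p n := by
  unfold lam
  rw [Finset.mul_sum]
  apply Finset.sum_congr rfl
  intro k _
  rw [coeff_C_mul]; ring

lemma lam_one (n : ℕ) : lam 1 n = 1 := by
  unfold lam
  rw [Finset.sum_eq_single 0]
  · simp
  · intro k _ hk; rw [coeff_one, if_neg hk]; simp
  · simp

lemma HM_P (s : Multiset ℝ) (hs : ∀ t ∈ s, 0 ≤ t) : HM (lam (P s)) ∧ ∀ n, 0 < lam (P s) n := by
  induction s using Multiset.induction with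
  | empty =>
    have : lam (P 0) = fun _ => 1 := by funext n; rw [P_zero, lam_one]
    rw [this]; exact ⟨HM.one, fun _ => one_pos⟩
  | cons t s ih =>
    obtain ⟨a, b⟩ := ih (fun x hx => hs x (Multiset.mem_cons_of_mem hx))
    have ht := hs t (Multiset.mem_cons_self _ _)
    have : lam (P (t ::ₘ s)) = fun n => lam (P s) n + t * (n * lam (P s) (n-1)) := by
      funext n; rw [P_cons, lam_step]
    rw [this]
    refine ⟨a.step (fun n => (b n).ne') t ht, fun n => ?_⟩
    have := b n
    have := b (n-1)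
    positivity

lemma HM_poly (n : ℕ) : ∀ p : ℝ[X], p.natDegree ≤ n → RR p → (∀ k, 0 ≤ p.coeff k) →
    HM (lam p) := by
  have base : ∀ p : ℝ[X], p.coeff 0 ≠ 0 → RR p → (∀ k, 0 ≤ p.coeff k) → HM (lam p) := by
    intro p h0 hp hc
    obtain ⟨s, _, he⟩ := fac _ p hp h0 le_rfl
    have hd := descartes s _ h0 0 (fun j _ => by rw [← he]; exact hc j)
    have hs : ∀ t ∈ s, 0 ≤ t := by
      intro t ht
      by_contra h
      push Not at h
      have : 0 < s.countP (· < 0) := Multiset.countP_pos.2 ⟨t, ht, h⟩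
      omega
    have : lam p = fun n => p.coeff 0 * lam (P s) n := by
      funext n; conv_lhs => rw [he]
      rw [lam_C]
    rw [this]
    exact (HM_P s hs).1.smul _
  have zero : HM (lam 0) := by
    have : lam 0 = fun _ => 0 * 1 := by funext n; simp [lam]
    rw [this]; exact HM.one.smul 0
  induction n with
  | zero =>
    intro p hd hp hc
    by_cases h0 : p.coeff 0 = 0
    · rw [eq_C_of_natDegree_le_zero hd, h0, C_0]; exact zero
    · exact base p h0 hp hc
  | succ n ih =>
    intro p hd hp hc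
    by_cases h0 : p.coeff 0 = 0
    · obtain ⟨q, rfl⟩ := X_dvd_iff.2 h0
      by_cases hq : q = 0
      · rw [hq, mul_zero]; exact zero
      have : lam (X * q) = fun n => n * lam q (n-1) := by funext n; rw [lam_X]
      rw [this]
      apply HM.N
      apply ih q _ (RR.of_mul_left X_ne_zero hp)
      · intro k; have := hc (k+1); rwa [coeff_X_mul] at this
      · rw [natDegree_X_mul hq] at hd; omega
    · exact base p h0 hp hc

/-- Piotrowski's theorem -/
lemma HM_of_bt {g : ℕ → ℝ} (h : Jen g) (hb : ∀ k, 0 ≤ D k g 0) : HM g := by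
  refine HM.lim (fun M => lam ((J (M+1) (Bt g)).comp (C ((M:ℝ)+1)⁻¹ * X + C 0))) g ?_ ?_
  · intro M
    apply HM_poly _ _ le_rfl ((h.bt (M+1)).comp (by positivity) 0)
    intro k
    rw [C_0, add_zero, comp_C_mul_X_coeff, J_coeff]
    have := hb k
    simp only [Bt]
    positivity
  · intro n
    rw [newton g n]
    simp only [lam, C_0, add_zero, comp_C_mul_X_coeff, J_coeff, Bt]
    apply tendsto_finsetSum
    intro k _
    have h1 := (isEquivalent_descFactorial k)
    have h2 : Tendsto (fun M : ℕ => (M.descFactorial k : ℝ) / (M:ℝ) ^ k) atTop (𝓝 1) := by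
      apply (Asymptotics.isEquivalent_iff_tendsto_one _).1 h1
      filter_upwards [eventually_gt_atTop 0] with M hM
      positivity
    have h3 := (h2.comp (tendsto_add_atTop_nat 1)).mul_const ((n.choose k : ℝ) * D k g 0)
    rw [one_mul] at h3
    refine h3.congr (fun M => ?_)
    simp only [Function.comp, Nat.descFactorial_eq_factorial_mul_choose]
    push_cast
    rw [inv_pow]
    field_simp

end Pool.Agent.H921Z.Herm
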